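import Mathlib

set_option autoImplicit false
set_option linter.unusedSectionVars false
set_option linter.unusedVariables false

open Finset

namespace Pool.Agent.ConfFlow

variable {V E : Type} [Fintype V] [Fintype E] [DecidableEq V] [DecidableEq E]

/-- The edges of `F` with exactly one end in `X`. -/
def cut (F : Finset E) (s t : E → V) (X : Finset V) : Finset E :=
  F.filter (fun e => ¬ (s e ∈ X ↔ t e ∈ X))

/-- net value leaving the vertex `v` -/
def bd {A : Type} [AddCommGroup A] (F : Finset E) (s t : E → V) (φ : E → A) (v : V) : A :=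
  (∑ e ∈ F with s e = v, φ e) - ∑ e ∈ F with t e = v, φ e

/-- conservation at every vertex -/
def IsFlow {A : Type} [AddCommGroup A] (F : Finset E) (s t : E → V) (φ : E → A) : Prop :=
  ∀ v : V, bd F s t φ v = 0

/-- value of the indicator of `X` at `v` -/
def ind (X : Finset V) (v : V) : ℤ := if v ∈ X then 1 else 0

/-- sign of an edge with respect to `X` -/
def sgn (s : E → V) (X : Finset V) (e : E) : ℤ := if s e ∈ X then 1 else -1

section flows
variable {A : Type} [AddCommGroup A] {F : Finset E} {s t : E → V}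

theorem mem_cut {X : Finset V} {e : E} :
    e ∈ cut F s t X ↔ e ∈ F ∧ ¬ (s e ∈ X ↔ t e ∈ X) := by
  simp [cut]

theorem cut_subset (X : Finset V) : cut F s t X ⊆ F := filter_subset _ _

theorem pot_sum (φ : E → A) (x : V → ℤ) :
    ∑ e ∈ F, (x (s e) - x (t e)) • φ e = ∑ v, x v • bd F s t φ v := by
  classical
  have h1 : ∀ r : E → V, ∑ e ∈ F, x (r e) • φ e = ∑ v, x v • ∑ e ∈ F with r e = v, φ e := by
    intro r
    rw [← Finset.sum_fiberwise_of_maps_to (s := F) (t := (univ : Finset V)) (g := r)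
      (fun _ _ => mem_univ _)]
    apply Finset.sum_congr rfl
    intro v _
    rw [Finset.smul_sum]
    apply Finset.sum_congr rfl
    intro e he
    rw [(mem_filter.mp he).2]
  simp only [bd, smul_sub, sub_smul, Finset.sum_sub_distrib]
  rw [h1 s, h1 t]

theorem IsFlow.pot (φ : E → A) (h : IsFlow F s t φ) (x : V → ℤ) :
    ∑ e ∈ F, (x (s e) - x (t e)) • φ e = 0 := by
  rw [pot_sum]
  exact Finset.sum_eq_zero (fun v _ => by rw [h v, smul_zero])

theorem ind_sub (X : Finset V) (e : E) :
    ind X (s e) - ind X (t e) = if ¬ (s e ∈ X ↔ t e ∈ X) then sgn s X e else 0 := by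
  unfold ind sgn
  by_cases h1 : s e ∈ X <;> by_cases h2 : t e ∈ X <;> simp [h1, h2]

theorem sum_ind (φ : E → A) (X : Finset V) :
    ∑ e ∈ F, (ind X (s e) - ind X (t e)) • φ e = ∑ e ∈ cut F s t X, sgn s X e • φ e := by
  unfold cut
  rw [Finset.sum_filter]
  apply Finset.sum_congr rfl
  intro e _
  rw [ind_sub]
  split_ifs <;> simp

theorem sum_bd (φ : E → A) (X : Finset V) :
    ∑ v ∈ X, bd F s t φ v = ∑ e ∈ cut F s t X, sgn s X e • φ e := by
  rw [← sum_ind, pot_sum]
  rw [← Finset.sum_subset (Finset.subset_univ X)]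
  · apply Finset.sum_congr rfl
    intro v hv
    simp [ind, hv]
  · intro v _ hv
    simp [ind, hv]

theorem IsFlow.cut_sum {φ : E → A} (h : IsFlow F s t φ) (X : Finset V) :
    ∑ e ∈ cut F s t X, sgn s X e • φ e = 0 := by
  rw [← sum_bd]
  exact Finset.sum_eq_zero (fun v _ => h v)

theorem bd_add (φ ψ : E → A) (v : V) :
    bd F s t (φ + ψ) v = bd F s t φ v + bd F s t ψ v := by
  simp only [bd, Pi.add_apply, Finset.sum_add_distrib]
  abel

theorem bd_zero (v : V) : bd F s t (0 : E → A) v = 0 := by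
  simp [bd]

theorem bd_sum {ι : Type} (S : Finset ι) (φ : ι → E → A) (v : V) :
    bd F s t (fun e => ∑ i ∈ S, φ i e) v = ∑ i ∈ S, bd F s t (φ i) v := by
  simp only [bd]
  rw [Finset.sum_comm, Finset.sum_comm (s := F.filter (fun e => t e = v)), ← Finset.sum_sub_distrib]

theorem bd_map {B : Type} [AddCommGroup B] (g : A →+ B) (φ : E → A) (v : V) :
    bd F s t (fun e => g (φ e)) v = g (bd F s t φ v) := by
  simp only [bd, map_sub, map_sum]

theorem IsFlow.map {B : Type} [AddCommGroup B] (g : A →+ B) {φ : E → A} (h : IsFlow F s t φ) :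
    IsFlow F s t (fun e => g (φ e)) := by
  intro v
  rw [bd_map, h v, map_zero]

theorem IsFlow.sum {ι : Type} (S : Finset ι) {φ : ι → E → A} (h : ∀ i ∈ S, IsFlow F s t (φ i)) :
    IsFlow F s t (fun e => ∑ i ∈ S, φ i e) := by
  intro v
  rw [bd_sum]
  exact Finset.sum_eq_zero (fun i hi => h i hi v)

/-- boundary of a unit vector -/
theorem bd_single (hF : ∀ e ∈ F, s e ≠ t e) {g : E} (hg : g ∈ F) (a : A) (v : V) :
    bd F s t (Pi.single g a) v = (if s g = v then a else 0) - (if t g = v then a else 0) := by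
  have h : ∀ r : E → V, ∑ e ∈ F with r e = v, (Pi.single g a : E → A) e
      = if r g = v then a else 0 := by
    intro r
    by_cases hr : r g = v
    · rw [if_pos hr, Finset.sum_eq_single g]
      · simp
      · intro b _ hb
        simp [hb]
      · intro hh
        exact absurd (mem_filter.mpr ⟨hg, hr⟩) hh
    · rw [if_neg hr]
      apply Finset.sum_eq_zero
      intro b hb
      have : b ≠ g := by
        rintro rfl
        exact hr (mem_filter.mp hb).2
      simp [this]
  simp only [bd, h]

end flows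

/-- `I` contains no nonempty cut. -/
def Free (F : Finset E) (s t : E → V) (I : Finset E) : Prop :=
  ∀ X : Finset V, (cut F s t X).Nonempty → ¬ cut F s t X ⊆ I

theorem Free.mono {F : Finset E} {s t : E → V} {I J : Finset E} (h : Free F s t J) (hIJ : I ⊆ J) :
    Free F s t I := fun X hX hs => h X hX (hs.trans hIJ)

/-- a unit chain from `a` to `v` outside `I` -/
def Conn (F : Finset E) (s t : E → V) (I : Finset E) (a v : V) : Prop :=
  ∃ ρ : E → ℤ, (∀ f ∈ I, ρ f = 0) ∧
    ∀ w, bd F s t ρ w = (if a = w then 1 else 0) - (if v = w then 1 else 0)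

theorem exists_unit_flow {F : Finset E} {s t : E → V} (hF : ∀ e ∈ F, s e ≠ t e)
    {I : Finset E} (hI : Free F s t I) {e : E} (heF : e ∈ F) (_heI : e ∈ I) :
    ∃ ψ : E → ℤ, IsFlow F s t ψ ∧ ψ e = 1 ∧ ∀ f ∈ I, f ≠ e → ψ f = 0 := by
  classical
  have key : Conn F s t I (t e) (s e) := by
    by_contra hcon
    let X : Finset V := univ.filter (fun v => Conn F s t I (t e) v)
    have htX : t e ∈ X := by
      simp only [X, mem_filter, mem_univ, true_and]
      exact ⟨0, fun _ _ => rfl, fun w => by rw [bd_zero]; ring⟩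
    have hsX : s e ∉ X := by
      simp only [X, mem_filter, mem_univ, true_and]
      exact hcon
    have hne : (cut F s t X).Nonempty := ⟨e, by
      rw [mem_cut]; exact ⟨heF, fun h => hsX (h.mpr htX)⟩⟩
    have := hI X hne
    rw [Finset.not_subset] at this
    obtain ⟨g, hg, hgI⟩ := this
    rw [mem_cut] at hg
    obtain ⟨hgF, hg⟩ := hg
    apply hg
    constructor
    · intro hs
      simp only [X, mem_filter, mem_univ, true_and] at hs ⊢
      obtain ⟨ρ, h1, h2⟩ := hs
      refine ⟨ρ + Pi.single g 1, ?_, ?_⟩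
      · intro f hf
        have : f ≠ g := by rintro rfl; exact hgI hf
        simp [h1 f hf, this]
      · intro w
        rw [bd_add, h2 w, bd_single hF hgF]
        ring
    · intro hs
      simp only [X, mem_filter, mem_univ, true_and] at hs ⊢
      obtain ⟨ρ, h1, h2⟩ := hs
      refine ⟨ρ + Pi.single g (-1), ?_, ?_⟩
      · intro f hf
        have : f ≠ g := by rintro rfl; exact hgI hf
        simp [h1 f hf, this]
      · intro w
        rw [bd_add, h2 w, bd_single hF hgF]
        split_ifs <;> ring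
  obtain ⟨ρ, h1, h2⟩ := key
  refine ⟨ρ + Pi.single e 1, ?_, ?_, ?_⟩
  · intro v
    rw [bd_add, h2 v, bd_single hF heF]
    ring
  · simp [h1 e _heI]
  · intro f hf hfe
    simp [h1 f hf, hfe]

/-- Prescribing the values of a flow on a free set. -/
theorem exists_flow {F : Finset E} {s t : E → V} (hF : ∀ e ∈ F, s e ≠ t e)
    {I : Finset E} (hIF : I ⊆ F) (hI : Free F s t I) {A : Type} [AddCommGroup A] (p : E → A) :
    ∃ φ : E → A, IsFlow F s t φ ∧ ∀ e ∈ I, φ e = p e := by
  classical
  have h : ∀ e : E, ∃ ψ : E → ℤ, e ∈ I → IsFlow F s t ψ ∧ ψ e = 1 ∧ ∀ f ∈ I, f ≠ e → ψ f = 0 := by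
    intro e
    by_cases he : e ∈ I
    · obtain ⟨ψ, hψ⟩ := exists_unit_flow hF hI (hIF he) he
      exact ⟨ψ, fun _ => hψ⟩
    · exact ⟨0, fun h => absurd h he⟩
  choose ψ hψ using h
  refine ⟨fun f => ∑ e ∈ I, ψ e f • p e, ?_, ?_⟩
  · apply IsFlow.sum
    intro e he
    exact IsFlow.map (zmultiplesHom A (p e)) (hψ e he).1
  · intro f hf
    show ∑ e ∈ I, ψ e f • p e = p f
    rw [Finset.sum_eq_single f]
    · rw [(hψ f hf).2.1, one_smul]
    · intro e he hef
      rw [(hψ e he).2.2 f hf (Ne.symm hef), zero_smul]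
    · intro h
      exact absurd hf h

end Pool.Agent.ConfFlow
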