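import Mathlib
import Pool.Agent.ConfFlow.Basic

set_option autoImplicit false
set_option linter.unusedSectionVars false
set_option linter.unusedVariables false

open Finset

namespace Pool.Agent.ConfFlow

variable {V E : Type} [Fintype V] [Fintype E] [DecidableEq V] [DecidableEq E]

theorem greedy (B : Finset E) (key : E → ℕ) (P : E → Finset E)
    (hkey : ∀ b, ∀ a ∈ P b, key a < key b) (hP : ∀ b, (P b).card ≤ 2) :
    ∃ χ : E → Fin 3, ∀ b ∈ B, ∀ a ∈ P b, a ∈ B → χ a ≠ χ b := by
  classical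
  induction B using Finset.induction_on_max_value key with
  | empty => exact ⟨fun _ => 0, by simp⟩
  | insert b S hb hmax ih =>
    obtain ⟨χ, hχ⟩ := ih
    have h1 : ((P b).image χ).card < (univ : Finset (Fin 3)).card := by
      have h2 := (card_image_le (s := P b) (f := χ)).trans (hP b)
      rw [Finset.card_univ, Fintype.card_fin]
      omega
    obtain ⟨col, _, hcol⟩ := Finset.exists_mem_notMem_of_card_lt_card h1
    refine ⟨Function.update χ b col, ?_⟩
    intro x hx a ha haS
    have hax := hkey x a ha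
    rw [mem_insert] at hx haS
    rcases hx with rfl | hx
    · have hne : a ≠ x := by rintro rfl; exact lt_irrefl _ hax
      rw [Function.update_self, Function.update_of_ne hne]
      intro h
      exact hcol (h ▸ mem_image_of_mem _ ha)
    · have hxb : x ≠ b := by rintro rfl; exact hb hx
      have hab : a ≠ b := by
        rintro rfl
        exact absurd (hmax x hx) (not_le.mpr hax)
      rw [Function.update_of_ne hxb, Function.update_of_ne hab]
      rcases haS with h | h
      · exact absurd h hab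
      · exact hχ x hx a ha h

/-- number of members of `L` that contain both ends of `b` -/
def depth (s t : E → V) (L : Finset (Finset V)) (b : E) : ℕ :=
  (L.filter (fun D => s b ∈ D ∧ t b ∈ D)).card

theorem depth_lt {s t : E → V} {L : Finset (Finset V)}
    (hlam : ∀ D ∈ L, ∀ D' ∈ L, D ⊆ D' ∨ D' ⊆ D ∨ Disjoint D D')
    {a b : E} {p q : V} (hpq : ∀ D : Finset V, (s b ∈ D ∧ t b ∈ D) ↔ (p ∈ D ∧ q ∈ D))
    {D : Finset V} (hD : D ∈ L) (hp : p ∈ D) (hq : q ∉ D) (ha : s a ∈ D ∧ t a ∈ D) :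
    depth s t L b < depth s t L a := by
  apply Finset.card_lt_card
  rw [Finset.ssubset_iff_of_subset]
  · refine ⟨D, mem_filter.mpr ⟨hD, ha⟩, ?_⟩
    intro h
    exact hq ((hpq D).mp (mem_filter.mp h).2).2
  · intro D' hD'
    rw [mem_filter] at hD' ⊢
    obtain ⟨h1, h2⟩ := hD'
    refine ⟨h1, ?_⟩
    rw [hpq] at h2
    rcases hlam D hD D' h1 with h | h | h
    · exact ⟨h ha.1, h ha.2⟩
    · exact absurd (h h2.2) hq
    · exact absurd h2.1 (Finset.disjoint_left.mp h hp)

theorem partner_unique {s t : E → V} {B : Finset E} {L : Finset (Finset V)}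
    (hlam : ∀ D ∈ L, ∀ D' ∈ L, D ⊆ D' ∨ D' ⊆ D ∨ Disjoint D D')
    {key : E → ℕ} (hkey : ∀ a b, depth s t L a < depth s t L b → key a < key b)
    {b : E} {p q : V} (hpq : ∀ D : Finset V, (s b ∈ D ∧ t b ∈ D) ↔ (p ∈ D ∧ q ∈ D))
    {D D' : Finset V} (hD : D ∈ L) (hp : p ∈ D) (hq : q ∉ D)
    (hD' : D' ∈ L) (hp' : p ∈ D') (hq' : q ∉ D') (hDD' : D ⊆ D') {a a' : E}
    (ha : a ∈ cut B s t D) (hab : key a < key b)
    (hu' : ∀ x ∈ cut B s t D', key x < key b → x = a') : a = a' := by
  apply hu' a _ hab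
  rw [mem_cut] at ha ⊢
  refine ⟨ha.1, ?_⟩
  intro hiff
  have hboth : s a ∈ D' ∧ t a ∈ D' := by
    by_cases h1 : s a ∈ D
    · exact ⟨hDD' h1, hiff.mp (hDD' h1)⟩
    · have h2 : t a ∈ D := by
        by_contra h2
        exact ha.2 ⟨fun h => absurd h h1, fun h => absurd h h2⟩
      exact ⟨hiff.mpr (hDD' h2), hDD' h2⟩
  have := hkey b a (depth_lt hlam hpq hD' hp' hq' hboth)
  omega

theorem laminar_coloring (s t : E → V) (B : Finset E) (L : Finset (Finset V))
    (hlam : ∀ D ∈ L, ∀ D' ∈ L, D ⊆ D' ∨ D' ⊆ D ∨ Disjoint D D') :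
    ∃ χ : E → Fin 3, ∀ D ∈ L, 2 ≤ (cut B s t D).card →
      ∀ c, ∃ b ∈ cut B s t D, χ b ≠ c := by
  classical
  let idx : E ≃ Fin (Fintype.card E) := Fintype.equivFin E
  let key : E → ℕ := fun b => depth s t L b * Fintype.card E + idx b
  have hkey : ∀ a b, depth s t L a < depth s t L b → key a < key b := by
    intro a b h
    have h1 := (idx a).2
    have h2 : (depth s t L a + 1) * Fintype.card E ≤ depth s t L b * Fintype.card E :=
      Nat.mul_le_mul_right _ h
    have h3 : (depth s t L a + 1) * Fintype.card E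
        = depth s t L a * Fintype.card E + Fintype.card E := by ring
    simp only [key]
    omega
  have hinj : ∀ a b, key a = key b → a = b := by
    intro a b h
    have h1 : depth s t L a = depth s t L b := by
      by_contra hne
      rcases lt_or_gt_of_ne hne with h' | h'
      · exact absurd (hkey a b h') (by omega)
      · exact absurd (hkey b a h') (by omega)
    simp only [key, h1] at h
    have h2 : idx a = idx b := Fin.ext (by omega)
    exact idx.injective h2
  let Q : E → E → Finset V → Prop := fun b a D =>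
    D ∈ L ∧ a ∈ cut B s t D ∧ key a < key b ∧ ∀ x ∈ cut B s t D, key x < key b → x = a
  let P1 : E → Finset E := fun b => univ.filter (fun a => ∃ D, Q b a D ∧ s b ∈ D ∧ t b ∉ D)
  let P2 : E → Finset E := fun b => univ.filter (fun a => ∃ D, Q b a D ∧ t b ∈ D ∧ s b ∉ D)
  have hgen : ∀ (b a a' : E) (p q : V),
      (∀ D : Finset V, (s b ∈ D ∧ t b ∈ D) ↔ (p ∈ D ∧ q ∈ D)) →
      (∃ D, Q b a D ∧ p ∈ D ∧ q ∉ D) → (∃ D, Q b a' D ∧ p ∈ D ∧ q ∉ D) → a = a' := by
    rintro b a a' p q hpq ⟨D, ⟨h1, h2, h3, h4⟩, h5, h6⟩ ⟨D', ⟨h1', h2', h3', h4'⟩, h5', h6'⟩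
    rcases hlam D h1 D' h1' with h | h | h
    · exact partner_unique hlam hkey hpq h1 h5 h6 h1' h5' h6' h h2 h3 h4'
    · exact (partner_unique hlam hkey hpq h1' h5' h6' h1 h5 h6 h h2' h3' h4).symm
    · exact absurd h5' (Finset.disjoint_left.mp h h5)
  have hP1 : ∀ b, (P1 b).card ≤ 1 := by
    intro b
    rw [Finset.card_le_one]
    intro a ha a' ha'
    rw [mem_filter] at ha ha'
    exact hgen b a a' (s b) (t b) (fun D => Iff.rfl) ha.2 ha'.2
  have hP2 : ∀ b, (P2 b).card ≤ 1 := by
    intro b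
    rw [Finset.card_le_one]
    intro a ha a' ha'
    rw [mem_filter] at ha ha'
    exact hgen b a a' (t b) (s b) (fun D => and_comm) ha.2 ha'.2
  obtain ⟨χ, hχ⟩ := greedy B key (fun b => P1 b ∪ P2 b) (by
    intro b a ha
    rw [mem_union, mem_filter, mem_filter] at ha
    rcases ha with ⟨_, D, h, _⟩ | ⟨_, D, h, _⟩
    · exact h.2.2.1
    · exact h.2.2.1) (by
    intro b
    have := card_union_le (P1 b) (P2 b)
    have h1 := hP1 b
    have h2 := hP2 b
    show (P1 b ∪ P2 b).card ≤ 2
    omega)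
  refine ⟨χ, ?_⟩
  intro D hD h2 c
  have hne : (cut B s t D).Nonempty := card_pos.mp (by omega)
  obtain ⟨a, ha, hamin⟩ := Finset.exists_min_image (cut B s t D) key hne
  have hne2 : ((cut B s t D).erase a).Nonempty := by
    apply card_pos.mp
    rw [card_erase_of_mem ha]
    omega
  obtain ⟨b, hb, hbmin⟩ := Finset.exists_min_image ((cut B s t D).erase a) key hne2
  rw [mem_erase] at hb
  have hab : key a < key b := by
    rcases lt_or_eq_of_le (hamin b hb.2) with h | h
    · exact h
    · exact absurd (hinj a b h).symm hb.1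
  have hQ : Q b a D := by
    refine ⟨hD, ha, hab, ?_⟩
    intro x hx hxb
    by_contra hxa
    have := hbmin x (mem_erase.mpr ⟨hxa, hx⟩)
    omega
  have hbD := hb.2
  rw [mem_cut] at hbD
  have haP : a ∈ P1 b ∪ P2 b := by
    rw [mem_union, mem_filter, mem_filter]
    by_cases h1 : s b ∈ D
    · left
      exact ⟨mem_univ _, D, hQ, h1, fun h => hbD.2 ⟨fun _ => h, fun _ => h1⟩⟩
    · right
      refine ⟨mem_univ _, D, hQ, ?_, h1⟩
      by_contra h
      exact hbD.2 ⟨fun h' => absurd h' h1, fun h' => absurd h' h⟩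
  have hne3 := hχ b hbD.1 a haP (mem_cut.mp ha).1
  by_cases hc : χ b = c
  · exact ⟨a, ha, fun h => hne3 (h.trans hc.symm)⟩
  · exact ⟨b, hb.2, hc⟩

end Pool.Agent.ConfFlow
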