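import Mathlib

set_option autoImplicit false
set_option linter.unusedSectionVars false
set_option linter.unusedVariables false

open Finset

namespace Pool.Agent.ConfFlow

/-- The properties of a matroid rank function used below. -/
structure Rk {α : Type} [DecidableEq α] (r : Finset α → ℤ) : Prop where
  zero : r ∅ = 0
  mono : ∀ A B : Finset α, A ⊆ B → r A ≤ r B
  unit : ∀ (A : Finset α) (e : α), r (insert e A) ≤ r A + 1
  sub : ∀ A B : Finset α, r (A ∪ B) + r (A ∩ B) ≤ r A + r B

variable {α : Type} [DecidableEq α]

theorem Rk.contract {r : Finset α → ℤ} (h : Rk r) (e : α) :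
    Rk (fun A => r (insert e A) - r {e}) where
  zero := by simp
  mono := fun A B hAB => by
    have := h.mono _ _ (Finset.insert_subset_insert e hAB)
    simpa using this
  unit := fun A f => by
    have := h.unit (insert e A) f
    rw [Finset.insert_comm] at this
    linarith
  sub := fun A B => by
    have := h.sub (insert e A) (insert e B)
    rw [← Finset.insert_union_distrib, ← Finset.insert_inter_distrib] at this
    linarith

theorem Rk.single_nonneg {r : Finset α → ℤ} (h : Rk r) (e : α) : 0 ≤ r {e} := by
  have := h.mono ∅ {e} (Finset.empty_subset _)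
  rw [h.zero] at this
  exact this

theorem Rk.single_le {r : Finset α → ℤ} (h : Rk r) (e : α) : r {e} ≤ 1 := by
  have := h.unit ∅ e
  rw [h.zero] at this
  simpa using this

theorem tight_union {ι : Type} [Fintype ι] {r : ι → Finset α → ℤ} (hr : ∀ i, Rk (r i))
    {R : Finset α} (H : ∀ A ⊆ R, (A.card : ℤ) ≤ ∑ i, r i A) {A B : Finset α}
    (hA : A ⊆ R) (hB : B ⊆ R) (tA : ∑ i, r i A = A.card) (tB : ∑ i, r i B = B.card) :
    ∑ i, r i (A ∪ B) = (A ∪ B).card := by
  have h1 := H (A ∪ B) (Finset.union_subset hA hB)
  have h2 := H (A ∩ B) (Finset.inter_subset_left.trans hA)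
  have h3 : ∑ i, r i (A ∪ B) + ∑ i, r i (A ∩ B) ≤ ∑ i, r i A + ∑ i, r i B := by
    rw [← Finset.sum_add_distrib, ← Finset.sum_add_distrib]
    exact Finset.sum_le_sum (fun i _ => (hr i).sub A B)
  have h4 : ((A ∪ B).card : ℤ) + (A ∩ B).card = A.card + B.card := by
    exact_mod_cast Finset.card_union_add_card_inter A B
  linarith

/-- Covering a finite set by sets independent with respect to given rank functions. -/
theorem covering {ι : Type} [Fintype ι] [DecidableEq ι] [Nonempty ι] (R : Finset α) :
    ∀ r : ι → Finset α → ℤ, (∀ i, Rk (r i)) → (∀ A ⊆ R, (A.card : ℤ) ≤ ∑ i, r i A) →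
      ∃ c : α → ι, ∀ i, (((R.filter (fun a => c a = i)).card : ℕ) : ℤ)
        ≤ r i (R.filter (fun a => c a = i)) := by
  classical
  induction R using Finset.induction_on with
  | empty =>
    intro r hr _
    exact ⟨fun _ => Classical.arbitrary ι, fun i => by simp [(hr i).zero]⟩
  | @insert e R he ih =>
    intro r hr H
    have claim : ∃ i, r i {e} = 1 ∧ ∀ A ⊆ R,
        (A.card : ℤ) ≤ (∑ j, r j A) - r i A + r i (insert e A) - 1 := by
      by_contra hcon
      push Not at hcon
      have h1 : ∀ i, ∃ A ⊆ R, ∑ j, r j A = A.card ∧ r i (insert e A) = r i A := by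
        intro i
        by_cases hi : r i {e} = 1
        · obtain ⟨A, hA, hlt⟩ := hcon i hi
          have h2 := H A (hA.trans (Finset.subset_insert _ _))
          have h3 := (hr i).mono A (insert e A) (Finset.subset_insert _ _)
          exact ⟨A, hA, by linarith, by linarith⟩
        · have h2 := (hr i).single_nonneg e
          have h3 := (hr i).single_le e
          have h4 : r i {e} = 0 := by omega
          refine ⟨∅, Finset.empty_subset _, ?_, ?_⟩
          · simp [(hr _).zero]
          · simp [h4, (hr i).zero]
      choose A hAR hAt hAe using h1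
      let U : Finset ι → Finset α := fun S => S.biUnion A
      have hU : ∀ S : Finset ι, U S ⊆ R ∧ ∑ j, r j (U S) = (U S).card := by
        intro S
        induction S using Finset.induction_on with
        | empty => simp [U, (hr _).zero]
        | @insert i S hi ihS =>
          have hUi : U (insert i S) = A i ∪ U S := Finset.biUnion_insert
          rw [hUi]
          refine ⟨Finset.union_subset (hAR i) ihS.1, ?_⟩
          exact tight_union hr (fun A hA => H A (hA.trans (Finset.subset_insert _ _)))
            (hAR i) ihS.1 (hAt i) ihS.2
      obtain ⟨hU1, hU2⟩ := hU univ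
      set B := U univ with hB
      have heB : e ∉ B := fun h => he (hU1 h)
      have hAB : ∀ i, A i ⊆ B := fun i => Finset.subset_biUnion_of_mem A (mem_univ i)
      have h5 : ∀ i, r i (insert e B) ≤ r i B := by
        intro i
        have h6 := (hr i).sub (insert e (A i)) B
        have h7 : insert e (A i) ∪ B = insert e B := by
          rw [Finset.insert_union, Finset.union_eq_right.mpr (hAB i)]
        have h8 : insert e (A i) ∩ B = A i := by
          rw [Finset.insert_inter_of_notMem heB, Finset.inter_eq_left.mpr (hAB i)]
        rw [h7, h8, hAe i] at h6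
        linarith
      have h9 := H (insert e B) (Finset.insert_subset_insert e hU1)
      have h10 : ∑ i, r i (insert e B) ≤ ∑ i, r i B := Finset.sum_le_sum (fun i _ => h5 i)
      rw [Finset.card_insert_of_notMem heB] at h9
      push_cast at h9
      linarith
    obtain ⟨i, hi1, hi2⟩ := claim
    let r' : ι → Finset α → ℤ := fun j =>
      if j = i then (fun A => r i (insert e A) - r i {e}) else r j
    have hr' : ∀ j, Rk (r' j) := by
      intro j
      by_cases hj : j = i
      · simp only [r', if_pos hj]
        exact (hr i).contract e
      · simp only [r', if_neg hj]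
        exact hr j
    have hsum : ∀ A, ∑ j, r' j A = (∑ j, r j A) - r i A + (r i (insert e A) - r i {e}) := by
      intro A
      have h11 : ∀ f : ι → ℤ, ∑ j, f j = f i + ∑ j ∈ univ.erase i, f j := by
        intro f
        exact (Finset.add_sum_erase univ f (mem_univ i)).symm
      rw [h11 (fun j => r' j A), h11 (fun j => r j A)]
      have h12 : ∑ j ∈ univ.erase i, r' j A = ∑ j ∈ univ.erase i, r j A := by
        apply Finset.sum_congr rfl
        intro j hj
        have : j ≠ i := (Finset.mem_erase.mp hj).1
        simp only [r', if_neg this]
      rw [h12]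
      simp only [r', if_pos]
      ring
    obtain ⟨c, hc⟩ := ih r' hr' (by
      intro A hA
      rw [hsum, hi1]
      have := hi2 A hA
      linarith)
    refine ⟨Function.update c e i, ?_⟩
    intro j
    have hfil : ∀ j, R.filter (fun a => Function.update c e i a = j)
        = R.filter (fun a => c a = j) := by
      intro j
      apply Finset.filter_congr
      intro a ha
      have : a ≠ e := by rintro rfl; exact he ha
      rw [Function.update_of_ne this]
    rw [Finset.filter_insert, Function.update_self, hfil]
    by_cases hj : i = j
    · subst hj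
      rw [if_pos rfl, Finset.card_insert_of_notMem (fun h => he (Finset.mem_filter.mp h).1)]
      have := hc i
      simp only [r', if_pos, hi1] at this
      push_cast
      linarith
    · rw [if_neg hj]
      have := hc j
      simp only [r', if_neg (Ne.symm hj)] at this
      exact this

end Pool.Agent.ConfFlow
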