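import Mathlib
import Pool.Agent.ConfFlow.Basic
import Pool.Agent.ConfFlow.Covering

set_option autoImplicit false
set_option linter.unusedSectionVars false
set_option linter.unusedVariables false

open Finset

namespace Pool.Agent.ConfFlow

variable {V E : Type} [Fintype V] [Fintype E] [DecidableEq V] [DecidableEq E]

/-- functions supported on `A` -/
def supp (A : Finset E) : Submodule (ZMod 2) (E → ZMod 2) where
  carrier := {u | ∀ e, e ∉ A → u e = 0}
  add_mem' := by
    intro a b ha hb e he
    simp [ha e he, hb e he]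
  zero_mem' := by
    intro e _
    rfl
  smul_mem' := by
    intro c a ha e he
    simp [ha e he]

/-- functions that agree with a coboundary on `F \ X` -/
def cobd (F : Finset E) (s t : E → V) (X : Finset E) : Submodule (ZMod 2) (E → ZMod 2) where
  carrier := {u | ∃ x : V → ZMod 2, ∀ e ∈ F \ X, u e = x (s e) - x (t e)}
  add_mem' := by
    rintro a b ⟨x, hx⟩ ⟨y, hy⟩
    refine ⟨x + y, fun e he => ?_⟩
    simp only [Pi.add_apply, hx e he, hy e he]
    ring
  zero_mem' := ⟨0, fun e he => by simp⟩
  smul_mem' := by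
    rintro c a ⟨x, hx⟩
    refine ⟨c • x, fun e he => ?_⟩
    simp only [Pi.smul_apply, hx e he, smul_sub]

theorem mem_supp {A : Finset E} {u : E → ZMod 2} : u ∈ supp A ↔ ∀ e, e ∉ A → u e = 0 := Iff.rfl

theorem mem_cobd {F : Finset E} {s t : E → V} {X : Finset E} {u : E → ZMod 2} :
    u ∈ cobd F s t X ↔ ∃ x : V → ZMod 2, ∀ e ∈ F \ X, u e = x (s e) - x (t e) := Iff.rfl

theorem supp_mono {A B : Finset E} (h : A ⊆ B) : (supp A : Submodule (ZMod 2) (E → ZMod 2)) ≤ supp B :=
  fun u hu e he => hu e (fun h' => he (h h'))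

theorem supp_insert (A : Finset E) (e : E) :
    supp (insert e A) ≤ supp A ⊔ Submodule.span (ZMod 2) {(Pi.single e 1 : E → ZMod 2)} := by
  intro u hu
  rw [Submodule.mem_sup]
  refine ⟨u - u e • Pi.single e 1, ?_, u e • Pi.single e 1,
    Submodule.smul_mem _ _ (Submodule.mem_span_singleton_self _), by abel⟩
  intro f hf
  by_cases hfe : f = e
  · subst hfe
    simp
  · have : u f = 0 := hu f (by simp [hfe, hf])
    simp [this, hfe]

theorem finrank_supp (A : Finset E) : Module.finrank (ZMod 2) (supp A : Submodule (ZMod 2) (E → ZMod 2)) = A.card := by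
  have e : (supp A : Submodule (ZMod 2) (E → ZMod 2)) ≃ₗ[ZMod 2] (A → ZMod 2) :=
    { toFun := fun u a => u.1 a.1
      map_add' := fun _ _ => rfl
      map_smul' := fun _ _ => rfl
      invFun := fun w => ⟨fun e => if h : e ∈ A then w ⟨e, h⟩ else 0, fun e he => by simp [he]⟩
      left_inv := by
        intro u
        ext e
        by_cases he : e ∈ A
        · simp [he]
        · simp [he, u.2 e he]
      right_inv := by
        intro w
        ext a
        simp }
  rw [e.finrank_eq]
  simp

/-- rank function -/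
noncomputable def rk (F : Finset E) (s t : E → V) (X A : Finset E) : ℤ :=
  (Module.finrank (ZMod 2) (supp A ⊔ cobd F s t X : Submodule (ZMod 2) (E → ZMod 2)) : ℤ)
    - Module.finrank (ZMod 2) (cobd F s t X)

theorem rk_isRk (F : Finset E) (s t : E → V) (X : Finset E) : Rk (rk F s t X) where
  zero := by
    have : (supp (∅ : Finset E) : Submodule (ZMod 2) (E → ZMod 2)) = ⊥ := by
      rw [eq_bot_iff]
      intro u hu
      rw [Submodule.mem_bot]
      ext e
      exact hu e (by simp)
    unfold rk
    rw [this, bot_sup_eq]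
    ring
  mono := by
    intro A B hAB
    unfold rk
    have : Module.finrank (ZMod 2) (supp A ⊔ cobd F s t X : Submodule (ZMod 2) (E → ZMod 2))
      ≤ Module.finrank (ZMod 2) (supp B ⊔ cobd F s t X : Submodule (ZMod 2) (E → ZMod 2)) :=
      Submodule.finrank_mono (sup_le_sup_right (supp_mono hAB) _)
    have h2 : (Module.finrank (ZMod 2) (supp A ⊔ cobd F s t X : Submodule (ZMod 2) (E → ZMod 2)) : ℤ)
      ≤ Module.finrank (ZMod 2) (supp B ⊔ cobd F s t X : Submodule (ZMod 2) (E → ZMod 2)) := by
      exact_mod_cast this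
    linarith
  unit := by
    intro A e
    unfold rk
    have h1 : (supp (insert e A) ⊔ cobd F s t X : Submodule (ZMod 2) (E → ZMod 2))
      ≤ (supp A ⊔ cobd F s t X) ⊔ Submodule.span (ZMod 2) {(Pi.single e 1 : E → ZMod 2)} := by
      refine sup_le ?_ ?_
      · refine (supp_insert A e).trans ?_
        exact sup_le_sup_right le_sup_left _
      · exact le_sup_right.trans le_sup_left
    have h2 := Submodule.finrank_mono h1
    have h3 := Submodule.finrank_add_le_finrank_add_finrank (supp A ⊔ cobd F s t X)
      (Submodule.span (ZMod 2) {(Pi.single e 1 : E → ZMod 2)})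
    have h4 : Module.finrank (ZMod 2) (Submodule.span (ZMod 2) {(Pi.single e 1 : E → ZMod 2)}) ≤ 1 :=
      finrank_span_le_card _ |>.trans (by simp)
    have h5 := h2.trans (h3.trans (Nat.add_le_add_left h4 _))
    have h6 : (Module.finrank (ZMod 2) (supp (insert e A) ⊔ cobd F s t X : Submodule (ZMod 2) (E → ZMod 2)) : ℤ)
      ≤ Module.finrank (ZMod 2) (supp A ⊔ cobd F s t X : Submodule (ZMod 2) (E → ZMod 2)) + 1 := by
      exact_mod_cast h5
    linarith
  sub := by
    intro A B
    unfold rk
    have h0 := Submodule.finrank_sup_add_finrank_inf_eq (supp A ⊔ cobd F s t X)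
      (supp B ⊔ cobd F s t X)
    have h1 : (supp (A ∪ B) ⊔ cobd F s t X : Submodule (ZMod 2) (E → ZMod 2))
      ≤ (supp A ⊔ cobd F s t X) ⊔ (supp B ⊔ cobd F s t X) := by
      refine sup_le ?_ (le_sup_right.trans le_sup_left)
      intro u hu
      have hu1 : (fun e => if e ∈ A then u e else 0) ∈ (supp A : Submodule (ZMod 2) (E → ZMod 2)) := by
        intro e he
        simp [he]
      have hu2 : (fun e => if e ∈ A then 0 else u e) ∈ (supp B : Submodule (ZMod 2) (E → ZMod 2)) := by
        intro e he
        by_cases h : e ∈ A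
        · simp [h]
        · simp only [h, if_false]
          exact hu e (by simp [h, he])
      have hu3 : u = (fun e => if e ∈ A then u e else 0) + (fun e => if e ∈ A then 0 else u e) := by
        ext e
        by_cases h : e ∈ A <;> simp [h]
      rw [hu3]
      exact Submodule.add_mem_sup (Submodule.mem_sup_left hu1) (Submodule.mem_sup_left hu2)
    have h2 : (supp (A ∩ B) ⊔ cobd F s t X : Submodule (ZMod 2) (E → ZMod 2))
      ≤ (supp A ⊔ cobd F s t X) ⊓ (supp B ⊔ cobd F s t X) :=
      le_inf (sup_le_sup_right (supp_mono inter_subset_left) _)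
        (sup_le_sup_right (supp_mono inter_subset_right) _)
    have h3 := Submodule.finrank_mono h1
    have h4 := Submodule.finrank_mono h2
    zify at h0 h3 h4
    linarith

theorem rk_eq (F : Finset E) (s t : E → V) (X A : Finset E) :
    rk F s t X A = A.card
      - Module.finrank (ZMod 2) (supp A ⊓ cobd F s t X : Submodule (ZMod 2) (E → ZMod 2)) := by
  unfold rk
  have h0 := Submodule.finrank_sup_add_finrank_inf_eq (supp A) (cobd F s t X)
  rw [finrank_supp] at h0
  zify at h0
  linarith

/-- `v` and `w` are not separated by a set whose cut lies in `X ∪ A` -/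
def Rel (F : Finset E) (s t : E → V) (X A : Finset E) (v w : V) : Prop :=
  ∀ Z : Finset V, cut F s t Z \ X ⊆ A → (v ∈ Z ↔ w ∈ Z)

open Classical in
/-- component of `v` -/
noncomputable def cc (F : Finset E) (s t : E → V) (X A : Finset E) (v : V) : Finset V :=
  univ.filter (fun w => Rel F s t X A v w)

theorem mem_cc {F : Finset E} {s t : E → V} {X A : Finset E} {v w : V} :
    w ∈ cc F s t X A v ↔ Rel F s t X A v w := by
  simp [cc]

theorem Rel.refl (F : Finset E) (s t : E → V) (X A : Finset E) (v : V) : Rel F s t X A v v :=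
  fun _ _ => Iff.rfl

theorem Rel.symm {F : Finset E} {s t : E → V} {X A : Finset E} {v w : V}
    (h : Rel F s t X A v w) : Rel F s t X A w v := fun Z hZ => (h Z hZ).symm

theorem Rel.trans {F : Finset E} {s t : E → V} {X A : Finset E} {u v w : V}
    (h : Rel F s t X A u v) (h' : Rel F s t X A v w) : Rel F s t X A u w :=
  fun Z hZ => (h Z hZ).trans (h' Z hZ)

theorem cc_eq {F : Finset E} {s t : E → V} {X A : Finset E} {v w : V}
    (h : Rel F s t X A v w) : cc F s t X A v = cc F s t X A w := by
  ext u
  rw [mem_cc, mem_cc]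
  exact ⟨fun h' => h.symm.trans h', fun h' => h.trans h'⟩

theorem rel_edge {F : Finset E} {s t : E → V} {X A : Finset E} {e : E} (he : e ∈ F) (hX : e ∉ X)
    (hA : e ∉ A) : Rel F s t X A (s e) (t e) := by
  intro Z hZ
  by_contra h
  exact hA (hZ (mem_sdiff.mpr ⟨mem_cut.mpr ⟨he, h⟩, hX⟩))

theorem cc_cut (F : Finset E) (s t : E → V) (X A : Finset E) (v : V) :
    cut F s t (cc F s t X A v) \ X ⊆ A := by
  intro e he
  rw [mem_sdiff, mem_cut] at he
  obtain ⟨⟨heF, h⟩, hX⟩ := he
  by_contra hA
  apply h
  have hr : Rel F s t X A (s e) (t e) := rel_edge heF hX hA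
  rw [mem_cc, mem_cc]
  exact ⟨fun h' => h'.trans hr, fun h' => h'.trans hr.symm⟩

theorem cut_cc_cases {F : Finset E} {s t : E → V} {X A : Finset E} {e : E} {v : V}
    (h : e ∈ cut F s t (cc F s t X A v)) :
    cc F s t X A v = cc F s t X A (s e) ∨ cc F s t X A v = cc F s t X A (t e) := by
  rw [mem_cut, mem_cc, mem_cc] at h
  by_cases h1 : Rel F s t X A v (s e)
  · exact Or.inl (cc_eq h1)
  · right
    have : Rel F s t X A v (t e) := by
      by_contra h2
      exact h.2 ⟨fun h => absurd h h1, fun h => absurd h h2⟩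
    exact cc_eq this

theorem dim_bound {F : Finset E} {s t : E → V} {X A : Finset E} (hA : A ⊆ F \ X)
    (h3 : ∀ Z : Finset V, (cut F s t Z \ X).Nonempty → cut F s t Z \ X ⊆ A →
      3 ≤ (cut F s t Z \ X).card) :
    3 * Module.finrank (ZMod 2) (supp A ⊓ cobd F s t X : Submodule (ZMod 2) (E → ZMod 2))
      ≤ 2 * A.card := by
  classical
  set C : V → Finset V := cc F s t X A with hC
  set K : Finset (Finset V) := (univ.image C).filter (fun Z => (cut F s t Z \ X).Nonempty) with hK
  have hKcut : ∀ Z ∈ K, cut F s t Z \ X ⊆ A := by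
    intro Z hZ
    rw [hK, mem_filter, mem_image] at hZ
    obtain ⟨⟨v, _, rfl⟩, _⟩ := hZ
    exact cc_cut F s t X A v
  have hKcard : 3 * K.card ≤ 2 * A.card := by
    have h1 : ∀ Z ∈ K, 3 ≤ (A.filter (fun e => e ∈ cut F s t Z)).card := by
      intro Z hZ
      have h2 := h3 Z (mem_filter.mp hZ).2 (hKcut Z hZ)
      refine h2.trans (card_le_card ?_)
      intro e he
      exact mem_filter.mpr ⟨hKcut Z hZ he, (mem_sdiff.mp he).1⟩
    have h4 : ∀ e ∈ A, (K.filter (fun Z => e ∈ cut F s t Z)).card ≤ 2 := by
      intro e _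
      have : K.filter (fun Z => e ∈ cut F s t Z) ⊆ {C (s e), C (t e)} := by
        intro Z hZ
        rw [mem_filter] at hZ
        obtain ⟨hZ1, hZ2⟩ := hZ
        rw [hK, mem_filter, mem_image] at hZ1
        obtain ⟨⟨v, _, rfl⟩, _⟩ := hZ1
        rw [mem_insert, mem_singleton]
        exact cut_cc_cases hZ2
      exact (card_le_card this).trans card_le_two
    have h5 : ∑ Z ∈ K, (A.filter (fun e => e ∈ cut F s t Z)).card
        = ∑ e ∈ A, (K.filter (fun Z => e ∈ cut F s t Z)).card := by
      simp only [Finset.card_filter]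
      exact Finset.sum_comm
    calc 3 * K.card = ∑ Z ∈ K, 3 := by rw [sum_const, smul_eq_mul, mul_comm]
      _ ≤ ∑ Z ∈ K, (A.filter (fun e => e ∈ cut F s t Z)).card := sum_le_sum h1
      _ = ∑ e ∈ A, (K.filter (fun Z => e ∈ cut F s t Z)).card := h5
      _ ≤ ∑ e ∈ A, 2 := sum_le_sum h4
      _ = 2 * A.card := by rw [sum_const, smul_eq_mul, mul_comm]
  let w : Finset V → E → ZMod 2 := fun Z e => if e ∈ cut F s t Z \ X then 1 else 0
  have hspan : (supp A ⊓ cobd F s t X : Submodule (ZMod 2) (E → ZMod 2))
      ≤ Submodule.span (ZMod 2) ((K.image w : Finset (E → ZMod 2)) : Set (E → ZMod 2)) := by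
    intro u hu
    rw [Submodule.mem_inf, mem_supp, mem_cobd] at hu
    obtain ⟨hu1, x, hx⟩ := hu
    have hconst : ∀ v v', Rel F s t X A v v' → x v = x v' := by
      intro v v' hvv
      have h1 := hvv (univ.filter (fun v => x v = 1)) (by
        intro e he
        rw [mem_sdiff, mem_cut] at he
        by_contra heA
        apply he.1.2
        have h2 := hx e (mem_sdiff.mpr ⟨he.1.1, he.2⟩)
        rw [hu1 e heA] at h2
        have h3 : x (s e) = x (t e) := (sub_eq_zero.mp h2.symm)
        simp [h3])
      simp only [mem_filter, mem_univ, true_and] at h1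
      have h01 : ∀ a b : ZMod 2, (a = 1 ↔ b = 1) → a = b := by decide
      exact h01 _ _ h1
    let y : Finset V → ZMod 2 := fun Z => if ∃ v ∈ Z, x v = 1 then 1 else 0
    have hy : ∀ v, y (C v) = x v := by
      intro v
      have h01 : ∀ a : ZMod 2, a ≠ 1 → a = 0 := by decide
      by_cases hv : x v = 1
      · have : ∃ v' ∈ C v, x v' = 1 := ⟨v, mem_cc.mpr (Rel.refl _ _ _ _ _ _), hv⟩
        simp only [y, if_pos this, hv]
      · have : ¬ ∃ v' ∈ C v, x v' = 1 := by
          rintro ⟨v', hv', h⟩
          exact hv ((hconst v v' (mem_cc.mp hv')).trans h)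
        simp only [y, if_neg this, h01 _ hv]
    have hsum : u = ∑ Z ∈ K, y Z • w Z := by
      ext e
      rw [Finset.sum_apply]
      simp only [Pi.smul_apply, smul_eq_mul, w, mul_ite, mul_one, mul_zero]
      rw [← Finset.sum_filter]
      by_cases heA : e ∈ A
      · have heF := mem_sdiff.mp (hA heA)
        rw [hx e (hA heA)]
        by_cases hst : C (s e) = C (t e)
        · have h1 : K.filter (fun Z => e ∈ cut F s t Z \ X) = ∅ := by
            rw [Finset.filter_eq_empty_iff]
            intro Z hZ hcut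
            rw [hK, mem_filter, mem_image] at hZ
            obtain ⟨⟨v, _, rfl⟩, _⟩ := hZ
            have hcut1 := (mem_sdiff.mp hcut).1
            have h2 : C v = C (s e) := by
              rcases cut_cc_cases hcut1 with h | h
              · exact h
              · exact h.trans hst.symm
            rw [h2, mem_cut] at hcut1
            apply hcut1.2
            constructor
            · intro _
              rw [hst]
              exact mem_cc.mpr (Rel.refl _ _ _ _ _ _)
            · intro _
              exact mem_cc.mpr (Rel.refl _ _ _ _ _ _)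
          rw [h1, sum_empty, ← hy (s e), ← hy (t e), hst, sub_self]
        · have hsC : s e ∈ C (s e) := mem_cc.mpr (Rel.refl _ _ _ _ _ _)
          have htC : t e ∈ C (t e) := mem_cc.mpr (Rel.refl _ _ _ _ _ _)
          have hs1 : t e ∉ C (s e) := fun h => hst (cc_eq (mem_cc.mp h))
          have ht1 : s e ∉ C (t e) := fun h => hst (cc_eq (mem_cc.mp h)).symm
          have hcs : e ∈ cut F s t (C (s e)) \ X :=
            mem_sdiff.mpr ⟨mem_cut.mpr ⟨heF.1, fun h => hs1 (h.mp hsC)⟩, heF.2⟩
          have hct : e ∈ cut F s t (C (t e)) \ X :=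
            mem_sdiff.mpr ⟨mem_cut.mpr ⟨heF.1, fun h => ht1 (h.mpr htC)⟩, heF.2⟩
          have h1 : K.filter (fun Z => e ∈ cut F s t Z \ X) = {C (s e), C (t e)} := by
            ext Z
            rw [mem_filter, mem_insert, mem_singleton]
            constructor
            · rintro ⟨hZ, hcut⟩
              rw [hK, mem_filter, mem_image] at hZ
              obtain ⟨⟨v, _, rfl⟩, _⟩ := hZ
              exact cut_cc_cases (mem_sdiff.mp hcut).1
            · rintro (rfl | rfl)
              · exact ⟨mem_filter.mpr ⟨mem_image_of_mem _ (mem_univ _), ⟨e, hcs⟩⟩, hcs⟩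
              · exact ⟨mem_filter.mpr ⟨mem_image_of_mem _ (mem_univ _), ⟨e, hct⟩⟩, hct⟩
          rw [h1, Finset.sum_pair hst, hy, hy]
          have h01 : ∀ a b : ZMod 2, a - b = a + b := by decide
          exact h01 _ _
      · rw [hu1 e heA]
        symm
        apply Finset.sum_eq_zero
        intro Z hZ
        rw [mem_filter] at hZ
        exact absurd (hKcut Z hZ.1 hZ.2) heA
    rw [hsum]
    apply Submodule.sum_mem
    intro Z hZ
    apply Submodule.smul_mem
    apply Submodule.subset_span
    rw [mem_coe]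
    exact mem_image_of_mem _ hZ
  have h6 := Submodule.finrank_mono hspan
  have h7 : Module.finrank (ZMod 2)
      (Submodule.span (ZMod 2) ((K.image w : Finset (E → ZMod 2)) : Set (E → ZMod 2))) ≤ K.card :=
    (finrank_span_finset_le_card (R := ZMod 2) (K.image w)).trans card_image_le
  omega

/-- Covering by three sets that contain no nonempty cut of `F \ X`. -/
theorem three_cover {F : Finset E} {s t : E → V} {X R : Finset E} (hR : R ⊆ F \ X)
    (h3 : ∀ Z : Finset V, (cut F s t Z \ X).Nonempty → cut F s t Z \ X ⊆ R →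
      3 ≤ (cut F s t Z \ X).card) :
    ∃ c : E → Fin 3, ∀ j : Fin 3, ∀ Z : Finset V, (cut F s t Z \ X).Nonempty →
      ¬ cut F s t Z \ X ⊆ R.filter (fun e => c e = j) := by
  classical
  obtain ⟨c, hc⟩ := covering (ι := Fin 3) R (fun _ => rk F s t X) (fun _ => rk_isRk F s t X) (by
    intro A hA
    rw [Finset.sum_const, Finset.card_univ, Fintype.card_fin, nsmul_eq_mul, rk_eq]
    have h1 := dim_bound (hA.trans hR) (fun Z hZ hZA => h3 Z hZ (hZA.trans hA))
    zify at h1
    push_cast
    linarith)
  refine ⟨c, fun j Z hZ hsub => ?_⟩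
  have h1 := hc j
  rw [rk_eq] at h1
  set I := R.filter (fun e => c e = j) with hI
  have h2 : Module.finrank (ZMod 2) (supp I ⊓ cobd F s t X : Submodule (ZMod 2) (E → ZMod 2)) = 0 := by
    have : (0 : ℤ) ≤ Module.finrank (ZMod 2)
      (supp I ⊓ cobd F s t X : Submodule (ZMod 2) (E → ZMod 2)) := Int.natCast_nonneg _
    have h3 : (Module.finrank (ZMod 2)
      (supp I ⊓ cobd F s t X : Submodule (ZMod 2) (E → ZMod 2)) : ℤ) = 0 := by linarith
    exact_mod_cast h3
  rw [Submodule.finrank_eq_zero] at h2
  obtain ⟨e, he⟩ := hZ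
  have hu : (fun e => if e ∈ cut F s t Z \ X then 1 else 0) ∈
      (supp I ⊓ cobd F s t X : Submodule (ZMod 2) (E → ZMod 2)) := by
    rw [Submodule.mem_inf, mem_supp, mem_cobd]
    constructor
    · intro f hf
      rw [if_neg]
      exact fun h => hf (hsub h)
    · refine ⟨fun v => if v ∈ Z then 1 else 0, ?_⟩
      intro f hf
      rw [mem_sdiff] at hf
      have hm : f ∈ cut F s t Z \ X ↔ ¬ (s f ∈ Z ↔ t f ∈ Z) := by
        rw [mem_sdiff, mem_cut]
        tauto
      by_cases h1 : s f ∈ Z <;> by_cases h2 : t f ∈ Z <;> simp only [hm, h1, h2] <;> decide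
  rw [h2, Submodule.mem_bot] at hu
  have := congrFun hu e
  simp only [if_pos he, Pi.zero_apply] at this
  exact absurd this one_ne_zero

end Pool.Agent.ConfFlow
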