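import Mathlib
import Pool.Agent.ConfFlow.RankCover
import Pool.Agent.ConfFlow.Laminar

set_option autoImplicit false
set_option linter.unusedSectionVars false
set_option linter.unusedVariables false

open Finset

namespace Pool.Agent.ConfFlow

variable {V E : Type} [Fintype V] [Fintype E] [DecidableEq V] [DecidableEq E]

theorem prop1 (p q a b c d : Prop) (h : (p ∧ ¬ ((a ∧ c) ↔ (b ∧ d))) ∧ ¬ q) :
    ((p ∧ ¬ (a ↔ b)) ∧ ¬ q) ∨ ((p ∧ ¬ (c ↔ d)) ∧ ¬ q) := by
  by_cases hp : p <;> by_cases hq : q <;> by_cases ha : a <;> by_cases hb : b <;>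
    by_cases hc : c <;> by_cases hd : d <;> simp [hp, hq, ha, hb, hc, hd] at h ⊢

theorem prop2 (p q a b c d : Prop) :
    ((p ∧ ¬ ((a ∧ ¬ c) ↔ (b ∧ ¬ d))) ∧ ¬ q) ↔
      ¬ (((p ∧ ¬ ((a ∧ c) ↔ (b ∧ d))) ∧ ¬ q) ↔ ((p ∧ ¬ (a ↔ b)) ∧ ¬ q)) := by
  by_cases hp : p <;> by_cases hq : q <;> by_cases ha : a <;> by_cases hb : b <;>
    by_cases hc : c <;> by_cases hd : d <;> simp [hp, hq, ha, hb, hc, hd]

theorem prop3 (p q a b c d : Prop) :
    ((p ∧ ¬ ((c ∧ ¬ a) ↔ (d ∧ ¬ b))) ∧ ¬ q) ↔
      ¬ (((p ∧ ¬ ((a ∧ c) ↔ (b ∧ d))) ∧ ¬ q) ↔ ((p ∧ ¬ (c ↔ d)) ∧ ¬ q)) := by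
  by_cases hp : p <;> by_cases hq : q <;> by_cases ha : a <;> by_cases hb : b <;>
    by_cases hc : c <;> by_cases hd : d <;> simp [hp, hq, ha, hb, hc, hd]

theorem cut_symmDiff {F : Finset E} {s t : E → V} (X Y : Finset V) :
    cut F s t (symmDiff X Y) = symmDiff (cut F s t X) (cut F s t Y) := by
  ext f
  rw [mem_symmDiff, mem_cut, mem_cut, mem_cut, mem_symmDiff, mem_symmDiff]
  by_cases hp : f ∈ F <;> by_cases ha : s f ∈ X <;> by_cases hb : t f ∈ X <;>
    by_cases hc : s f ∈ Y <;> by_cases hd : t f ∈ Y <;> simp [hp, ha, hb, hc, hd]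

/-- `B` is a maximal set of edges without nonempty cut. -/
structure MaxFree (F : Finset E) (s t : E → V) (B : Finset E) : Prop where
  sub : B ⊆ F
  free : Free F s t B
  max : ∀ e ∈ F \ B, ∃ Z : Finset V, cut F s t Z \ B = {e}

theorem exists_maxFree {F : Finset E} {s t : E → V} {I : Finset E} (hI : Free F s t I)
    (hIF : I ⊆ F) : ∃ B, I ⊆ B ∧ MaxFree F s t B := by
  classical
  let 𝓕 : Finset (Finset E) := F.powerset.filter (fun B => I ⊆ B ∧ Free F s t B)
  have hne : 𝓕.Nonempty := ⟨I, by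
    rw [mem_filter, mem_powerset]
    exact ⟨hIF, Finset.Subset.refl _, hI⟩⟩
  obtain ⟨B, hB, hmax⟩ := Finset.exists_max_image 𝓕 Finset.card hne
  rw [mem_filter, mem_powerset] at hB
  refine ⟨B, hB.2.1, ⟨hB.1, hB.2.2, ?_⟩⟩
  intro e he
  rw [mem_sdiff] at he
  have h1 : insert e B ∉ 𝓕 := by
    intro h
    have := hmax _ h
    rw [card_insert_of_notMem he.2] at this
    omega
  rw [mem_filter, mem_powerset] at h1
  have h2 : ¬ Free F s t (insert e B) := by
    intro h
    exact h1 ⟨insert_subset he.1 hB.1, hB.2.1.trans (subset_insert _ _), h⟩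
  unfold Free at h2
  push Not at h2
  obtain ⟨Z, hZ1, hZ2⟩ := h2
  refine ⟨Z, ?_⟩
  have h3 := hB.2.2 Z hZ1
  rw [Finset.not_subset] at h3
  obtain ⟨f, hf1, hf2⟩ := h3
  have hfe : f = e := by
    have := hZ2 hf1
    rw [mem_insert] at this
    exact this.resolve_right hf2
  subst hfe
  ext g
  rw [mem_sdiff, mem_singleton]
  constructor
  · rintro ⟨h4, h5⟩
    have := hZ2 h4
    rw [mem_insert] at this
    exact this.resolve_right h5
  · rintro rfl
    exact ⟨hf1, hf2⟩

theorem MaxFree.exists_min {F : Finset E} {s t : E → V} {B : Finset E} (h : MaxFree F s t B) :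
    ∃ D : E → Finset V, ∀ e ∈ F \ B, cut F s t (D e) \ B = {e} ∧
      ∀ Z : Finset V, cut F s t Z \ B = {e} → (D e).card ≤ Z.card := by
  classical
  have h1 : ∀ e : E, ∃ D : Finset V, e ∈ F \ B → (cut F s t D \ B = {e} ∧
      ∀ Z : Finset V, cut F s t Z \ B = {e} → D.card ≤ Z.card) := by
    intro e
    by_cases he : e ∈ F \ B
    · obtain ⟨Z, hZ⟩ := h.max e he
      have hne : (univ.filter (fun Z : Finset V => cut F s t Z \ B = {e})).Nonempty :=
        ⟨Z, by rw [mem_filter]; exact ⟨mem_univ _, hZ⟩⟩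
      obtain ⟨D, hD, hmin⟩ := Finset.exists_min_image _ Finset.card hne
      rw [mem_filter] at hD
      refine ⟨D, fun _ => ⟨hD.2, fun Z hZ => hmin Z ?_⟩⟩
      rw [mem_filter]
      exact ⟨mem_univ _, hZ⟩
    · exact ⟨∅, fun h => absurd h he⟩
  choose D hD using h1
  exact ⟨D, fun e he => hD e he⟩

theorem laminar_of_min {F : Finset E} {s t : E → V} {B : Finset E} {e e' : E} {D D' : Finset V}
    (h : cut F s t D \ B = {e}) (hmin : ∀ Z : Finset V, cut F s t Z \ B = {e} → D.card ≤ Z.card)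
    (h' : cut F s t D' \ B = {e'})
    (hmin' : ∀ Z : Finset V, cut F s t Z \ B = {e'} → D'.card ≤ Z.card) (hne : e ≠ e') :
    D ⊆ D' ∨ D' ⊆ D ∨ Disjoint D D' := by
  by_contra hcon
  push Not at hcon
  obtain ⟨h1, h2, h3⟩ := hcon
  rw [Finset.not_subset] at h1 h2
  rw [Finset.not_disjoint_iff] at h3
  obtain ⟨x, hx, hx'⟩ := h1
  obtain ⟨y, hy, hy'⟩ := h2
  obtain ⟨z, hz, hz'⟩ := h3
  have hD : ∀ f, ((f ∈ F ∧ ¬ (s f ∈ D ↔ t f ∈ D)) ∧ f ∉ B) ↔ f = e := by
    intro f
    rw [← mem_cut, ← mem_sdiff, h, mem_singleton]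
  have hD' : ∀ f, ((f ∈ F ∧ ¬ (s f ∈ D' ↔ t f ∈ D')) ∧ f ∉ B) ↔ f = e' := by
    intro f
    rw [← mem_cut, ← mem_sdiff, h', mem_singleton]
  have c1 : (D \ D').card < D.card := by
    apply Finset.card_lt_card
    rw [Finset.ssubset_iff_of_subset sdiff_subset]
    exact ⟨z, hz, fun h => (mem_sdiff.mp h).2 hz'⟩
  have c2 : (D ∩ D').card < D.card := by
    apply Finset.card_lt_card
    rw [Finset.ssubset_iff_of_subset inter_subset_left]
    exact ⟨x, hx, fun h => hx' (mem_inter.mp h).2⟩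
  have c3 : (D ∩ D').card < D'.card := by
    apply Finset.card_lt_card
    rw [Finset.ssubset_iff_of_subset inter_subset_right]
    exact ⟨y, hy, fun h => hy' (mem_inter.mp h).1⟩
  have c4 : (D' \ D).card < D'.card := by
    apply Finset.card_lt_card
    rw [Finset.ssubset_iff_of_subset sdiff_subset]
    exact ⟨z, hz', fun h => (mem_sdiff.mp h).2 hz⟩
  -- membership in the three derived cuts
  have m1 : ∀ f, f ∈ cut F s t (D ∩ D') \ B ↔
      ((f ∈ F ∧ ¬ ((s f ∈ D ∧ s f ∈ D') ↔ (t f ∈ D ∧ t f ∈ D'))) ∧ f ∉ B) := by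
    intro f
    rw [mem_sdiff, mem_cut, mem_inter, mem_inter]
  have m2 : ∀ f, f ∈ cut F s t (D \ D') \ B ↔
      ((f ∈ F ∧ ¬ ((s f ∈ D ∧ s f ∉ D') ↔ (t f ∈ D ∧ t f ∉ D'))) ∧ f ∉ B) := by
    intro f
    rw [mem_sdiff, mem_cut, mem_sdiff, mem_sdiff]
  have m3 : ∀ f, f ∈ cut F s t (D' \ D) \ B ↔
      ((f ∈ F ∧ ¬ ((s f ∈ D' ∧ s f ∉ D) ↔ (t f ∈ D' ∧ t f ∉ D))) ∧ f ∉ B) := by
    intro f
    rw [mem_sdiff, mem_cut, mem_sdiff, mem_sdiff]
  have k0 : ∀ f, f ∈ cut F s t (D ∩ D') \ B → f = e ∨ f = e' := by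
    intro f hf
    rw [m1] at hf
    rw [← hD f, ← hD' f]
    exact prop1 _ _ _ _ _ _ hf
  have k2 : ∀ f, f ∈ cut F s t (D \ D') \ B ↔ ¬ (f ∈ cut F s t (D ∩ D') \ B ↔ f = e) := by
    intro f
    rw [m1, m2, ← hD f]
    exact prop2 _ _ _ _ _ _
  have k3 : ∀ f, f ∈ cut F s t (D' \ D) \ B ↔ ¬ (f ∈ cut F s t (D ∩ D') \ B ↔ f = e') := by
    intro f
    rw [m1, m3, ← hD' f]
    exact prop3 _ _ _ _ _ _
  by_cases a1 : e ∈ cut F s t (D ∩ D') \ B <;> by_cases a2 : e' ∈ cut F s t (D ∩ D') \ B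
  · have q2 : cut F s t (D \ D') \ B = {e'} := by
      ext f
      rw [k2 f, mem_singleton]
      constructor
      · intro hf
        by_cases hfe : f = e
        · subst hfe
          exact absurd ⟨fun _ => rfl, fun _ => a1⟩ hf
        · by_cases hfm : f ∈ cut F s t (D ∩ D') \ B
          · exact (k0 f hfm).resolve_left hfe
          · exact absurd ⟨fun h => absurd h hfm, fun h => absurd h hfe⟩ hf
      · rintro rfl hiff
        exact hne (hiff.mp a2).symm
    have q3 : cut F s t (D' \ D) \ B = {e} := by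
      ext f
      rw [k3 f, mem_singleton]
      constructor
      · intro hf
        by_cases hfe : f = e'
        · subst hfe
          exact absurd ⟨fun _ => rfl, fun _ => a2⟩ hf
        · by_cases hfm : f ∈ cut F s t (D ∩ D') \ B
          · exact (k0 f hfm).resolve_right hfe
          · exact absurd ⟨fun h => absurd h hfm, fun h => absurd h hfe⟩ hf
      · rintro rfl hiff
        exact hne (hiff.mp a1)
    have r2 := hmin' _ q2
    have r3 := hmin _ q3
    omega
  · have q : cut F s t (D ∩ D') \ B = {e} := by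
      ext f
      rw [mem_singleton]
      constructor
      · intro hf
        rcases k0 f hf with h | h
        · exact h
        · subst h
          exact absurd hf a2
      · rintro rfl
        exact a1
    have := hmin _ q
    omega
  · have q : cut F s t (D ∩ D') \ B = {e'} := by
      ext f
      rw [mem_singleton]
      constructor
      · intro hf
        rcases k0 f hf with h | h
        · subst h
          exact absurd hf a1
        · exact h
      · rintro rfl
        exact a2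
    have := hmin' _ q
    omega
  · have q2 : cut F s t (D \ D') \ B = {e} := by
      ext f
      rw [k2 f, mem_singleton]
      have hfm : f ∉ cut F s t (D ∩ D') \ B := by
        intro hf
        rcases k0 f hf with h | h
        · subst h
          exact a1 hf
        · subst h
          exact a2 hf
      constructor
      · intro hf
        by_contra hfe
        exact hf ⟨fun h => absurd h hfm, fun h => absurd h hfe⟩
      · rintro rfl hiff
        exact a1 (hiff.mpr rfl)
    have := hmin _ q2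
    omega

theorem MaxFree.color {F : Finset E} {s t : E → V} {B : Finset E} (hB : MaxFree F s t B)
    (h3 : ∀ Z : Finset V, (cut F s t Z).Nonempty → 3 ≤ (cut F s t Z).card) :
    ∃ χ : E → Fin 3, ∀ c, ∀ Z : Finset V, (cut F s t Z).Nonempty →
      2 ≤ ((cut F s t Z).filter (fun e => ¬ (e ∈ B ∧ χ e = c))).card := by
  classical
  obtain ⟨D, hD⟩ := hB.exists_min
  obtain ⟨χ, hχ⟩ := laminar_coloring s t B ((F \ B).image D) (by
    intro X hX Y hY
    rw [mem_image] at hX hY
    obtain ⟨e, he, rfl⟩ := hX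
    obtain ⟨f, hf, rfl⟩ := hY
    by_cases hef : e = f
    · subst hef
      exact Or.inl (Finset.Subset.refl _)
    · exact laminar_of_min (hD e he).1 (hD e he).2 (hD f hf).1 (hD f hf).2 hef)
  refine ⟨χ, ?_⟩
  intro c Z hZ
  by_cases h2 : 2 ≤ (cut F s t Z \ B).card
  · refine h2.trans (card_le_card ?_)
    intro e he
    rw [mem_sdiff] at he
    rw [mem_filter]
    exact ⟨he.1, fun h => he.2 h.1⟩
  · have hne : (cut F s t Z \ B).Nonempty := by
      rw [Finset.sdiff_nonempty]
      exact hB.free Z hZ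
    have hcard : (cut F s t Z \ B).card = 1 := by
      have := card_pos.mpr hne
      omega
    obtain ⟨e, he⟩ := card_eq_one.mp hcard
    have heT : e ∈ cut F s t Z \ B := by rw [he]; exact mem_singleton_self e
    rw [mem_sdiff, mem_cut] at heT
    have heFB : e ∈ F \ B := mem_sdiff.mpr ⟨heT.1.1, heT.2⟩
    obtain ⟨hDe, _⟩ := hD e heFB
    have hcutD : cut F s t (D e) = cut F s t Z := by
      by_contra hcon
      have hsymm : (cut F s t (symmDiff (D e) Z)).Nonempty := by
        by_contra hemp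
        rw [Finset.not_nonempty_iff_eq_empty, cut_symmDiff] at hemp
        exact hcon (symmDiff_eq_bot.mp hemp)
      apply hB.free _ hsymm
      intro f hf
      by_contra hfB
      rw [cut_symmDiff, mem_symmDiff] at hf
      have hZf : f ∈ cut F s t Z \ B ↔ f = e := by rw [he, mem_singleton]
      have hDf : f ∈ cut F s t (D e) \ B ↔ f = e := by rw [hDe, mem_singleton]
      rw [mem_sdiff] at hZf hDf
      rcases hf with ⟨h1, h2⟩ | ⟨h1, h2⟩
      · exact h2 (hZf.mpr (hDf.mp ⟨h1, hfB⟩)).1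
      · exact h2 (hDf.mpr (hZf.mp ⟨h1, hfB⟩)).1
    have hcB : 2 ≤ (cut B s t (D e)).card := by
      have h4 := h3 Z hZ
      have h5 : cut F s t Z = cut B s t (D e) ∪ {e} := by
        rw [← hcutD, ← hDe]
        ext f
        rw [mem_union, mem_sdiff, mem_cut, mem_cut]
        by_cases hfB : f ∈ B
        · have hfF := hB.sub hfB
          simp [hfB, hfF]
        · simp [hfB]
      have h6 := card_union_le (cut B s t (D e)) {e}
      rw [← h5, card_singleton] at h6
      omega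
    obtain ⟨b, hb, hbc⟩ := hχ (D e) (mem_image_of_mem _ heFB) hcB c
    rw [mem_cut] at hb
    have hbe : e ≠ b := by
      rintro rfl
      exact heT.2 hb.1
    have hsub : {e, b} ⊆ (cut F s t Z).filter (fun e => ¬ (e ∈ B ∧ χ e = c)) := by
      intro f hf
      rw [mem_insert, mem_singleton] at hf
      rw [mem_filter]
      rcases hf with rfl | rfl
      · exact ⟨mem_cut.mpr heT.1, fun h => heT.2 h.1⟩
      · refine ⟨?_, fun h => hbc h.2⟩
        rw [← hcutD, mem_cut]
        exact ⟨hB.sub hb.1, hb.2⟩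
    have := card_le_card hsub
    rw [card_pair hbe] at this
    exact this

/-- Nine classes such that every nonempty cut has two edges outside each class. -/
theorem nine_classes {F : Finset E} {s t : E → V}
    (h3 : ∀ Z : Finset V, (cut F s t Z).Nonempty → 3 ≤ (cut F s t Z).card) :
    ∃ cls : E → Fin 3 × Fin 3, ∀ c, ∀ Z : Finset V, (cut F s t Z).Nonempty →
      2 ≤ ((cut F s t Z).filter (fun e => cls e ≠ c)).card := by
  classical
  obtain ⟨d, hd⟩ := three_cover (F := F) (s := s) (t := t) (X := ∅) (R := F) (by simp) (by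
    intro Z hZ _
    rw [sdiff_empty] at hZ ⊢
    exact h3 Z hZ)
  have hfree : ∀ j, Free F s t (F.filter (fun e => d e = j)) := by
    intro j Z hZ hsub
    apply hd j Z
    · rw [sdiff_empty]; exact hZ
    · rw [sdiff_empty]; exact hsub
  have h1 : ∀ j : Fin 3, ∃ χ : E → Fin 3, ∀ c, ∀ Z : Finset V, (cut F s t Z).Nonempty →
      2 ≤ ((cut F s t Z).filter (fun e => ¬ (d e = j ∧ χ e = c))).card := by
    intro j
    obtain ⟨B, hIB, hB⟩ := exists_maxFree (hfree j) (filter_subset _ _)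
    obtain ⟨χ, hχ⟩ := hB.color h3
    refine ⟨χ, ?_⟩
    intro c Z hZ
    refine (hχ c Z hZ).trans (card_le_card ?_)
    intro e he
    rw [mem_filter] at he ⊢
    refine ⟨he.1, ?_⟩
    rintro ⟨h1, h2⟩
    apply he.2
    refine ⟨hIB ?_, h2⟩
    rw [mem_filter]
    exact ⟨(mem_cut.mp he.1).1, h1⟩
  choose χ hχ using h1
  refine ⟨fun e => (d e, χ (d e) e), ?_⟩
  rintro ⟨j, c⟩ Z hZ
  refine (hχ j c Z hZ).trans (card_le_card ?_)
  intro e he
  rw [mem_filter] at he ⊢
  refine ⟨he.1, ?_⟩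
  intro h
  rw [Prod.mk.injEq] at h
  apply he.2
  refine ⟨h.1, ?_⟩
  rw [← h.1]
  exact h.2

end Pool.Agent.ConfFlow
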