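import Mathlib
import Pool.Agent.ConfFlow.Classes

set_option autoImplicit false
set_option linter.unusedSectionVars false
set_option linter.unusedVariables false

open Finset

namespace Pool.Agent.ConfFlow

variable {V E : Type} [Fintype V] [Fintype E] [DecidableEq V] [DecidableEq E]

/-- A flow with three `ZMod 3` coordinates that vanishes exactly on `X`. -/
theorem exists_zero_exactly {F : Finset E} {s t : E → V} (hF : ∀ e ∈ F, s e ≠ t e)
    {X : Finset E} (hX : X ⊆ F)
    (hP : ∀ Z : Finset V, (cut F s t Z).Nonempty → 2 ≤ (cut F s t Z \ X).card) :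
    ∃ g : E → (Fin 3 → ZMod 3), IsFlow F s t g ∧ (∀ e ∈ X, g e = 0) ∧
      ∀ e ∈ F, e ∉ X → g e ≠ 0 := by
  classical
  let 𝓡 : Finset (Finset E) := (F \ X).powerset.filter
    (fun R => ∀ Z : Finset V, cut F s t Z \ X ⊆ R → (cut F s t Z \ X).card ≠ 2)
  have hne : 𝓡.Nonempty := ⟨∅, by
    rw [mem_filter, mem_powerset]
    refine ⟨empty_subset _, fun Z hZ => ?_⟩
    rw [Finset.subset_empty] at hZ
    rw [hZ]
    simp⟩
  obtain ⟨R, hR, hmax⟩ := Finset.exists_max_image 𝓡 Finset.card hne
  rw [mem_filter, mem_powerset] at hR
  obtain ⟨c, hc⟩ := three_cover (s := s) (t := t) hR.1 (by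
    intro Z hZ hZR
    have h1 : (cut F s t Z).Nonempty := hZ.mono sdiff_subset
    have h2 := hP Z h1
    have h3 := hR.2 Z hZR
    omega)
  have hfree : ∀ j, Free F s t (X ∪ R.filter (fun e => c e = j)) := by
    intro j Z hZ hsub
    have h2 := hP Z hZ
    have h3 : (cut F s t Z \ X).Nonempty := card_pos.mp (by omega)
    apply hc j Z h3
    intro e he
    rw [mem_sdiff] at he
    have := hsub he.1
    rw [mem_union] at this
    exact this.resolve_left he.2
  have hsubF : ∀ j, X ∪ R.filter (fun e => c e = j) ⊆ F := by
    intro j
    apply union_subset hX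
    exact (filter_subset _ _).trans (hR.1.trans sdiff_subset)
  have hflow : ∀ j : Fin 3, ∃ g : E → ZMod 3, IsFlow F s t g ∧
      ∀ e ∈ X ∪ R.filter (fun e => c e = j), g e = if e ∈ X then 0 else 1 :=
    fun j => exists_flow hF (hsubF j) (hfree j) (fun e => if e ∈ X then 0 else 1)
  choose g hg hgv using hflow
  have hgX : ∀ e ∈ X, ∀ j, g j e = 0 := by
    intro e he j
    rw [hgv j e (mem_union_left _ he), if_pos he]
  have hgR : ∀ e ∈ R, g (c e) e = 1 := by
    intro e he
    have heX : e ∉ X := (mem_sdiff.mp (hR.1 he)).2
    rw [hgv (c e) e (mem_union_right _ (mem_filter.mpr ⟨he, rfl⟩)), if_neg heX]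
  refine ⟨fun e j => g j e, ?_, ?_, ?_⟩
  · intro v
    ext j
    have := hg j v
    simp only [bd] at this ⊢
    rw [Pi.sub_apply, Finset.sum_apply, Finset.sum_apply]
    exact this
  · intro e he
    ext j
    exact hgX e he j
  · intro e heF heX h0
    have h0' : ∀ j, g j e = 0 := fun j => congrFun h0 j
    by_cases heR : e ∈ R
    · have := hgR e heR
      rw [h0'] at this
      exact absurd this (by decide)
    · have hnot : insert e R ∉ 𝓡 := by
        intro h
        have := hmax _ h
        rw [card_insert_of_notMem heR] at this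
        omega
      rw [mem_filter, mem_powerset] at hnot
      have h1 : ¬ ∀ Z : Finset V, cut F s t Z \ X ⊆ insert e R → (cut F s t Z \ X).card ≠ 2 := by
        intro h
        exact hnot ⟨insert_subset (mem_sdiff.mpr ⟨heF, heX⟩) hR.1, h⟩
      push Not at h1
      obtain ⟨Z, hZ1, hZ2⟩ := h1
      have heZ : e ∈ cut F s t Z \ X := by
        by_contra hcon
        apply hR.2 Z _ hZ2
        intro f hf
        have := hZ1 hf
        rw [mem_insert] at this
        rcases this with rfl | h
        · exact absurd hf hcon
        · exact h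
      obtain ⟨f, hf, hfe⟩ : ∃ f ∈ cut F s t Z \ X, f ≠ e := by
        by_contra hcon
        push Not at hcon
        have : cut F s t Z \ X ⊆ {e} := fun f hf => mem_singleton.mpr (hcon f hf)
        have := card_le_card this
        rw [card_singleton] at this
        omega
      have hfR : f ∈ R := by
        have := hZ1 hf
        rw [mem_insert] at this
        exact this.resolve_left hfe
      have hpair : cut F s t Z \ X = {f, e} := by
        symm
        apply Finset.eq_of_subset_of_card_le
        · intro x hx
          rw [mem_insert, mem_singleton] at hx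
          rcases hx with rfl | rfl
          · exact hf
          · exact heZ
        · rw [hZ2, card_pair hfe]
      have hsum := (hg (c f)).cut_sum Z
      have hsplit : ∑ x ∈ cut F s t Z, sgn s Z x • g (c f) x
          = ∑ x ∈ cut F s t Z \ X, sgn s Z x • g (c f) x := by
        symm
        apply Finset.sum_subset sdiff_subset
        intro x hx hx2
        have : x ∈ X := by
          by_contra h
          exact hx2 (mem_sdiff.mpr ⟨hx, h⟩)
        rw [hgX x this, smul_zero]
      rw [hsplit, hpair, Finset.sum_pair hfe, hgR f hfR, h0', smul_zero, add_zero] at hsum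
      unfold sgn at hsum
      split_ifs at hsum
      · exact absurd hsum (by decide)
      · exact absurd hsum (by decide)

end Pool.Agent.ConfFlow
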