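import Mathlib
import Pool.Agent.ConfFlow.Zero

set_option autoImplicit false
set_option linter.unusedSectionVars false
set_option linter.unusedVariables false

open Finset

namespace Pool.Agent.ConfFlow

variable {V E : Type} [Fintype V] [Fintype E] [DecidableEq V] [DecidableEq E]

/-- incidence number -/
def inc (s t : E → V) (v : V) (e : E) : ℤ :=
  (if s e = v then 1 else 0) - (if t e = v then 1 else 0)

theorem inc_src {s t : E → V} {e : E} (h : s e ≠ t e) : inc s t (s e) e = 1 := by
  unfold inc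
  rw [if_pos rfl, if_neg (Ne.symm h)]
  rfl

theorem inc_tgt {s t : E → V} {e : E} (h : s e ≠ t e) : inc s t (t e) e = -1 := by
  unfold inc
  rw [if_pos rfl, if_neg h]
  rfl

theorem inc_cases {s t : E → V} {e : E} (h : s e ≠ t e) {v : V} (hv : s e = v ∨ t e = v) :
    inc s t v e = 1 ∨ inc s t v e = -1 := by
  rcases hv with rfl | rfl
  · exact Or.inl (inc_src h)
  · exact Or.inr (inc_tgt h)

theorem unit_smul_eq_zero {A : Type} [AddCommGroup A] {z : ℤ} (hz : z = 1 ∨ z = -1) {x : A}
    (h : z • x = 0) : x = 0 := by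
  rcases hz with rfl | rfl
  · simpa using h
  · simpa using h

/-- index set of the ternary coordinates -/
abbrev Idx : Type := ((Fin 3 × Fin 3) × Option (Fin 3)) ⊕ Fin 3

/-- a pair of flows without confluent pairs -/
structure Good (F : Finset E) (s t : E → V) (q : ℕ) (f : E → ZMod q) (ψ : E → Idx → ZMod 3) :
    Prop where
  flow1 : IsFlow F s t f
  flow2 : IsFlow F s t ψ
  nz : ∀ e ∈ F, ψ e ≠ 0
  conf : ∀ v, ∀ e ∈ F, ∀ e' ∈ F, e ≠ e' → (s e = v ∨ t e = v) → (s e' = v ∨ t e' = v) →
    ¬ (inc s t v e • f e + inc s t v e' • f e' = 0 ∧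
      inc s t v e • ψ e + inc s t v e' • ψ e' = 0)

theorem isFlow_pi {ι : Type} {A : Type} [AddCommGroup A] {F : Finset E} {s t : E → V}
    {ψ : E → ι → A} : IsFlow F s t ψ ↔ ∀ i, IsFlow F s t (fun e => ψ e i) := by
  constructor
  · intro h i v
    have := congrFun (h v) i
    simp only [bd] at this ⊢
    rw [Pi.sub_apply, Finset.sum_apply, Finset.sum_apply] at this
    exact this
  · intro h v
    ext i
    have := h i v
    simp only [bd] at this ⊢
    rw [Pi.sub_apply, Finset.sum_apply, Finset.sum_apply]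
    exact this

theorem vertex_coloring {F : Finset E} {s t : E → V} (hF : ∀ e ∈ F, s e ≠ t e) {Δ : ℕ}
    (hΔ : ∀ v, (F.filter (fun e => s e = v ∨ t e = v)).card ≤ Δ) {C : Type} [Fintype C]
    [DecidableEq C] (hC : Δ < Fintype.card C) :
    ∃ col : V → C, ∀ e ∈ F, col (s e) ≠ col (t e) := by
  classical
  have key : ∀ S : Finset V, ∃ col : V → C, ∀ e ∈ F, s e ∈ S → t e ∈ S → col (s e) ≠ col (t e) := by
    intro S
    induction S using Finset.induction_on with
    | empty =>
      have : Nonempty C := Fintype.card_pos_iff.mp (by omega)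
      exact ⟨fun _ => Classical.arbitrary C, fun e _ h => absurd h (notMem_empty _)⟩
    | insert v S hv ih =>
      obtain ⟨col, hcol⟩ := ih
      have h1 : ((F.filter (fun e => s e = v ∨ t e = v)).image
          (fun e => col (if s e = v then t e else s e))).card < (univ : Finset C).card := by
        rw [Finset.card_univ]
        exact lt_of_le_of_lt (card_image_le.trans (hΔ v)) hC
      obtain ⟨c, _, hc⟩ := Finset.exists_mem_notMem_of_card_lt_card h1
      refine ⟨Function.update col v c, ?_⟩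
      intro e he hs ht
      by_cases h2 : s e = v
      · have h3 : t e ≠ v := fun h => hF e he (h2.trans h.symm)
        rw [h2, Function.update_self, Function.update_of_ne h3]
        intro h
        apply hc
        rw [h]
        refine mem_image.mpr ⟨e, mem_filter.mpr ⟨he, Or.inl h2⟩, ?_⟩
        rw [if_pos h2]
      · by_cases h3 : t e = v
        · rw [h3, Function.update_self, Function.update_of_ne h2]
          intro h
          apply hc
          rw [← h]
          refine mem_image.mpr ⟨e, mem_filter.mpr ⟨he, Or.inr h3⟩, ?_⟩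
          rw [if_neg h2]
        · rw [Function.update_of_ne h2, Function.update_of_ne h3]
          rw [mem_insert] at hs ht
          exact hcol e he (hs.resolve_left h2) (ht.resolve_left h3)
  obtain ⟨col, hcol⟩ := key univ
  exact ⟨col, fun e he => hcol e he (mem_univ _) (mem_univ _)⟩

/-- sign of a bit -/
def bsgn (b : Bool) : ℤ := if b then 1 else -1

theorem bsgn_cases (b : Bool) : bsgn b = 1 ∨ bsgn b = -1 := by
  cases b <;> simp [bsgn]

theorem label_sum_ne {n : ℕ} (v : Fin n → Bool) (j j' : Fin n) :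
    ((bsgn (v j) * ((j : ℕ) + 1 : ℤ) + bsgn (v j') * ((j' : ℕ) + 1 : ℤ) : ℤ) : ZMod (2 * n + 1))
      ≠ 0 := by
  intro h
  rw [ZMod.intCast_zmod_eq_zero_iff_dvd] at h
  have hj := j.2
  have hj' := j'.2
  have hne : bsgn (v j) * ((j : ℕ) + 1 : ℤ) + bsgn (v j') * ((j' : ℕ) + 1 : ℤ) = 0 := by
    apply Int.eq_zero_of_abs_lt_dvd h
    rw [abs_lt]
    push_cast
    rcases bsgn_cases (v j) with h1 | h1 <;> rcases bsgn_cases (v j') with h2 | h2 <;>
      rw [h1, h2] <;> constructor <;> omega
  have hjj : j = j' := by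
    apply Fin.ext
    rcases bsgn_cases (v j) with h1 | h1 <;> rcases bsgn_cases (v j') with h2 | h2 <;>
      rw [h1, h2] at hne <;> omega
  subst hjj
  rcases bsgn_cases (v j) with h1 | h1 <;> rw [h1] at hne <;> omega

theorem base {F : Finset E} {s t : E → V} (hF : ∀ e ∈ F, s e ≠ t e)
    (h3 : ∀ Z : Finset V, (cut F s t Z).Nonempty → 3 ≤ (cut F s t Z).card) {Δ n : ℕ}
    (hΔ : ∀ v, (F.filter (fun e => s e = v ∨ t e = v)).card ≤ Δ) (hn : Δ < 2 ^ n)
    {e0 : E} (he0 : e0 ∈ F) (a : ZMod (2 * n + 1)) :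
    ∃ f ψ, Good F s t (2 * n + 1) f ψ ∧ f e0 = a := by
  classical
  obtain ⟨cls, hcls⟩ := nine_classes h3
  let X : Fin 3 × Fin 3 → Finset E := fun c => F.filter (fun e => cls e = c)
  have hXF : ∀ c, X c ⊆ F := fun c => filter_subset _ _
  have hcutX : ∀ c Z, cut F s t Z \ X c = (cut F s t Z).filter (fun e => cls e ≠ c) := by
    intro c Z
    ext e
    rw [mem_sdiff, mem_filter, mem_filter]
    constructor
    · rintro ⟨h1, h2⟩
      exact ⟨h1, fun h => h2 ⟨(mem_cut.mp h1).1, h⟩⟩
    · rintro ⟨h1, h2⟩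
      exact ⟨h1, fun h => h2 h.2⟩
  have hXP : ∀ c, ∀ Z : Finset V, (cut F s t Z).Nonempty → 2 ≤ (cut F s t Z \ X c).card := by
    intro c Z hZ
    rw [hcutX]
    exact hcls c Z hZ
  have hXfree : ∀ c, Free F s t (X c) := by
    intro c Z hZ hsub
    have h1 := hXP c Z hZ
    rw [Finset.sdiff_eq_empty_iff_subset.mpr hsub, card_empty] at h1
    omega
  -- the flows vanishing exactly on a class
  have hg : ∀ c, ∃ g : E → (Fin 3 → ZMod 3), IsFlow F s t g ∧ (∀ e ∈ X c, g e = 0) ∧
      ∀ e ∈ F, e ∉ X c → g e ≠ 0 := fun c => exists_zero_exactly hF (hXF c) (hXP c)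
  choose g hg1 hg2 hg3 using hg
  -- the flow vanishing exactly on e0
  have hP0 : ∀ Z : Finset V, (cut F s t Z).Nonempty → 2 ≤ (cut F s t Z \ {e0}).card := by
    intro Z hZ
    have h1 := h3 Z hZ
    have h2 := Finset.le_card_sdiff {e0} (cut F s t Z)
    rw [card_singleton] at h2
    omega
  obtain ⟨g0, hg01, hg02, hg03⟩ := exists_zero_exactly hF
    (singleton_subset_iff.mpr he0) hP0
  -- the maximal free set through e0
  have hfree0 : Free F s t {e0} := by
    intro Z hZ hsub
    have h1 := hP0 Z hZ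
    rw [Finset.sdiff_eq_empty_iff_subset.mpr hsub, card_empty] at h1
    omega
  obtain ⟨B, he0B, hB⟩ := exists_maxFree hfree0 (singleton_subset_iff.mpr he0)
  rw [singleton_subset_iff] at he0B
  obtain ⟨D, hD⟩ := hB.exists_min
  let ε : V → ZMod 3 := fun v => ∏ e ∈ F \ B, if v ∈ D e then -1 else 1
  have hε0 : ∀ v, ε v ≠ 0 := by
    intro v
    apply Finset.prod_ne_zero_iff.mpr
    intro e _
    split_ifs <;> decide
  have hεst : ∀ e ∈ F \ B, ε (s e) = - ε (t e) := by
    intro e he
    have h1 : ∀ v, ε v = (if v ∈ D e then -1 else 1) *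
        ∏ f ∈ (F \ B).erase e, if v ∈ D f then (-1 : ZMod 3) else 1 := by
      intro v
      exact (Finset.mul_prod_erase (F \ B) (fun f => if v ∈ D f then (-1 : ZMod 3) else 1) he).symm
    have h2 : (∏ f ∈ (F \ B).erase e, if s e ∈ D f then (-1 : ZMod 3) else 1)
        = ∏ f ∈ (F \ B).erase e, if t e ∈ D f then (-1 : ZMod 3) else 1 := by
      apply Finset.prod_congr rfl
      intro f hf
      rw [mem_erase] at hf
      have h4 : s e ∈ D f ↔ t e ∈ D f := by
        by_contra hcon
        have h5 : e ∈ cut F s t (D f) \ B := by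
          rw [mem_sdiff] at he ⊢
          exact ⟨mem_cut.mpr ⟨he.1, hcon⟩, he.2⟩
        rw [(hD f hf.2).1, mem_singleton] at h5
        exact hf.1 h5.symm
      simp only [h4]
    have h5 : e ∈ cut F s t (D e) \ B := by
      rw [(hD e he).1]
      exact mem_singleton_self e
    rw [mem_sdiff, mem_cut] at h5
    rw [h1 (s e), h1 (t e), h2]
    by_cases h6 : s e ∈ D e
    · have h7 : t e ∉ D e := fun h => h5.1.2 ⟨fun _ => h, fun _ => h6⟩
      rw [if_pos h6, if_neg h7]
      ring
    · have h7 : t e ∈ D e := by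
        by_contra h7
        exact h5.1.2 ⟨fun h => absurd h h6, fun h => absurd h h7⟩
      rw [if_neg h6, if_pos h7]
      ring
  have hεinc : ∀ v, ∀ e ∈ F, e ∉ B → (s e = v ∨ t e = v) → inc s t v e • ε (s e) = ε v := by
    intro v e he heB hv
    rcases hv with rfl | rfl
    · rw [inc_src (hF e he), one_smul]
    · rw [inc_tgt (hF e he), hεst e (mem_sdiff.mpr ⟨he, heB⟩), neg_smul, one_smul, neg_neg]
  -- the flows h
  have hh : ∀ c, ∃ h : E → ZMod 3, IsFlow F s t h ∧
      ∀ e ∈ X c, h e = if e ∈ B then 0 else ε (s e) :=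
    fun c => exists_flow hF (hXF c) (hXfree c) (fun e => if e ∈ B then 0 else ε (s e))
  choose h hh1 hh2 using hh
  -- vertex colouring and labels
  obtain ⟨col, hcol⟩ := vertex_coloring (C := Fin n → Bool) hF hΔ (by
    rw [Fintype.card_fun, Fintype.card_bool, Fintype.card_fin]
    exact hn)
  have hn0 : 0 < n := by
    rcases Nat.eq_zero_or_pos n with h0 | h0
    · subst h0
      exfalso
      apply hcol e0 he0
      ext j
      exact j.elim0
    · exact h0
  have hj : ∀ e : E, ∃ j : Fin n, e ∈ F → col (s e) j ≠ col (t e) j := by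
    intro e
    by_cases he : e ∈ F
    · obtain ⟨j, hj⟩ := Function.ne_iff.mp (hcol e he)
      exact ⟨j, fun _ => hj⟩
    · exact ⟨⟨0, hn0⟩, fun h => absurd h he⟩
  choose j hj using hj
  let ℓ : E → ℤ := fun e => bsgn (col (s e) (j e)) * ((j e : ℕ) + 1 : ℤ)
  obtain ⟨f, hf1, hf2⟩ := exists_flow hF hB.sub hB.free
    (fun e => if e = e0 then a else ((ℓ e : ℤ) : ZMod (2 * n + 1)))
  have hℓinc : ∀ v, ∀ e ∈ F, (s e = v ∨ t e = v) → inc s t v e • ((ℓ e : ℤ) : ZMod (2 * n + 1))
      = ((bsgn (col v (j e)) * ((j e : ℕ) + 1 : ℤ) : ℤ) : ZMod (2 * n + 1)) := by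
    intro v e he hv
    rcases hv with rfl | rfl
    · rw [inc_src (hF e he), one_smul]
    · rw [inc_tgt (hF e he), neg_smul, one_smul]
      have h1 := hj e he
      have h2 : bsgn (col (s e) (j e)) = - bsgn (col (t e) (j e)) := by
        cases h3 : col (s e) (j e) <;> cases h4 : col (t e) (j e) <;> simp_all [bsgn]
      simp only [ℓ, h2]
      push_cast
      ring
  let ψ : E → Idx → ZMod 3 := fun e i =>
    Sum.elim (fun p : (Fin 3 × Fin 3) × Option (Fin 3) => Option.elim p.2 (h p.1 e) (fun k => g p.1 e k))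
      (fun k => g0 e k) i
  have hψh : ∀ e c, ψ e (Sum.inl (c, none)) = h c e := fun e c => rfl
  have hψg : ∀ e c k, ψ e (Sum.inl (c, some k)) = g c e k := fun e c k => rfl
  have hψ0 : ∀ e k, ψ e (Sum.inr k) = g0 e k := fun e k => rfl
  refine ⟨f, ψ, ⟨hf1, ?_, ?_, ?_⟩, ?_⟩
  · rw [isFlow_pi]
    rintro (⟨c, (_ | k)⟩ | k)
    · exact hh1 c
    · exact isFlow_pi.mp (hg1 c) k
    · exact isFlow_pi.mp hg01 k
  · intro e he h0
    have hc : ∃ c, cls e ≠ c := by
      refine ⟨((cls e).1 + 1, (cls e).2), ?_⟩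
      intro h
      have h1 := congrArg Prod.fst h
      have h01 : ∀ x : Fin 3, x ≠ x + 1 := by decide
      exact h01 _ h1
    obtain ⟨c, hc⟩ := hc
    apply hg3 c e he
    · intro h1
      exact hc (mem_filter.mp h1).2
    · ext k
      rw [← hψg, h0]
      rfl
  · rintro v e he e' he' hne hv hv' ⟨H1, H2⟩
    have hi := inc_cases (hF e he) hv
    have hi' := inc_cases (hF e' he') hv'
    have K0 : inc s t v e • g0 e + inc s t v e' • g0 e' = 0 := by
      ext k
      exact congrFun H2 (Sum.inr k)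
    have Kg : ∀ c, inc s t v e • g c e + inc s t v e' • g c e' = 0 := by
      intro c
      ext k
      exact congrFun H2 (Sum.inl (c, some k))
    have Kh : ∀ c, inc s t v e • h c e + inc s t v e' • h c e' = 0 := by
      intro c
      exact congrFun H2 (Sum.inl (c, none))
    by_cases he1 : e = e0
    · have h1 : g0 e = 0 := hg02 e (mem_singleton.mpr he1)
      rw [h1, smul_zero, zero_add] at K0
      refine hg03 e' he' ?_ (unit_smul_eq_zero hi' K0)
      rw [mem_singleton]
      exact fun h => hne (he1.trans h.symm)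
    by_cases he2 : e' = e0
    · have h1 : g0 e' = 0 := hg02 e' (mem_singleton.mpr he2)
      rw [h1, smul_zero, add_zero] at K0
      refine hg03 e he ?_ (unit_smul_eq_zero hi K0)
      rw [mem_singleton]
      exact he1
    by_cases hc : cls e = cls e'
    · have hXe : e ∈ X (cls e) := mem_filter.mpr ⟨he, rfl⟩
      have hXe' : e' ∈ X (cls e) := mem_filter.mpr ⟨he', hc.symm⟩
      have Kc := Kh (cls e)
      rw [hh2 _ e hXe, hh2 _ e' hXe'] at Kc
      by_cases hb : e ∈ B <;> by_cases hb' : e' ∈ B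
      · rw [hf2 e hb, hf2 e' hb', if_neg he1, if_neg he2, hℓinc v e he hv, hℓinc v e' he' hv',
          ← Int.cast_add] at H1
        exact label_sum_ne (col v) (j e) (j e') H1
      · rw [if_pos hb, if_neg hb', smul_zero, zero_add, hεinc v e' he' hb' hv'] at Kc
        exact hε0 v Kc
      · rw [if_neg hb, if_pos hb', smul_zero, add_zero, hεinc v e he hb hv] at Kc
        exact hε0 v Kc
      · rw [if_neg hb, if_neg hb', hεinc v e he hb hv, hεinc v e' he' hb' hv'] at Kc
        have h01 : ∀ x : ZMod 3, x + x = 0 → x = 0 := by decide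
        exact hε0 v (h01 _ Kc)
    · have hXe : e ∈ X (cls e) := mem_filter.mpr ⟨he, rfl⟩
      have K := Kg (cls e)
      rw [hg2 _ e hXe, smul_zero, zero_add] at K
      refine hg3 (cls e) e' he' ?_ (unit_smul_eq_zero hi' K)
      intro h1
      exact hc (mem_filter.mp h1).2.symm
  · have := hf2 e0 he0B
    simpa using this

end Pool.Agent.ConfFlow
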