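import Mathlib
import Pool.Agent.ConfFlow.Base

set_option autoImplicit false
set_option linter.unusedSectionVars false
set_option linter.unusedVariables false

open Finset

namespace Pool.Agent.ConfFlow

variable {V E : Type} [Fintype V] [Fintype E] [DecidableEq V] [DecidableEq E]

/-- `v` is an end of `g` -/
def At (s t : E → V) (v : V) (g : E) : Prop := s g = v ∨ t g = v

/-- end of `e` in `X` -/
def iend (s t : E → V) (X : Finset V) (e : E) : V := if s e ∈ X then s e else t e

/-- edges of the side graph -/
def sideF (F : Finset E) (s t : E → V) (X : Finset V) (e : E) : Finset E :=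
  insert e (F.filter (fun g => s g ∈ X ∧ t g ∈ X))

/-- sources in the side graph -/
def sideS (s t : E → V) (X : Finset V) (e f : E) : E → V :=
  Function.update s e (if s e ∈ X then s e else iend s t X f)

/-- targets in the side graph -/
def sideT (s t : E → V) (X : Finset V) (e f : E) : E → V :=
  Function.update t e (if s e ∈ X then iend s t X f else t e)

/-- a cut with exactly two edges which share no end -/
structure TwoCut (F : Finset E) (s t : E → V) (X : Finset V) (e f : E) : Prop where
  loopless : ∀ g ∈ F, s g ≠ t g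
  ne : e ≠ f
  cut_eq : cut F s t X = {e, f}
  noshare : ∀ v, ¬ (At s t v e ∧ At s t v f)

theorem cut_compl {F : Finset E} {s t : E → V} (X : Finset V) :
    cut F s t Xᶜ = cut F s t X := by
  ext g
  rw [mem_cut, mem_cut, mem_compl, mem_compl, not_iff_not]

namespace TwoCut

variable {F : Finset E} {s t : E → V} {X : Finset V} {e f : E}

theorem compl (h : TwoCut F s t X e f) : TwoCut F s t Xᶜ f e where
  loopless := h.loopless
  ne := h.ne.symm
  cut_eq := by rw [cut_compl, h.cut_eq, Finset.pair_comm]
  noshare := fun v hv => h.noshare v ⟨hv.2, hv.1⟩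

theorem mem_e (h : TwoCut F s t X e f) : e ∈ F ∧ ¬ (s e ∈ X ↔ t e ∈ X) := by
  rw [← mem_cut, h.cut_eq]
  simp

theorem mem_f (h : TwoCut F s t X e f) : f ∈ F ∧ ¬ (s f ∈ X ↔ t f ∈ X) := by
  rw [← mem_cut, h.cut_eq]
  simp

theorem other (h : TwoCut F s t X e f) {g : E} (hg : g ∈ F) (hge : g ≠ e) (hgf : g ≠ f) :
    (s g ∈ X ↔ t g ∈ X) := by
  by_contra hcon
  have : g ∈ cut F s t X := mem_cut.mpr ⟨hg, hcon⟩
  rw [h.cut_eq, mem_insert, mem_singleton] at this
  rcases this with h | h
  · exact hge h
  · exact hgf h

theorem f_notMem (h : TwoCut F s t X e f) : f ∉ sideF F s t X e := by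
  unfold sideF
  rw [mem_insert, mem_filter]
  rintro (h1 | h1)
  · exact h.ne h1.symm
  · exact h.mem_f.2 ⟨fun _ => h1.2.2, fun _ => h1.2.1⟩

theorem e_mem (h : TwoCut F s t X e f) : e ∈ sideF F s t X e := mem_insert_self _ _

theorem side_sub (h : TwoCut F s t X e f) : sideF F s t X e ⊆ F := by
  intro g hg
  unfold sideF at hg
  rw [mem_insert, mem_filter] at hg
  rcases hg with rfl | hg
  · exact h.mem_e.1
  · exact hg.1

theorem side_card (h : TwoCut F s t X e f) : (sideF F s t X e).card < F.card := by
  apply Finset.card_lt_card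
  rw [Finset.ssubset_iff_of_subset h.side_sub]
  exact ⟨f, h.mem_f.1, h.f_notMem⟩

end TwoCut

theorem iend_mem {s t : E → V} {X : Finset V} {e : E} (h : ¬ (s e ∈ X ↔ t e ∈ X)) :
    iend s t X e ∈ X := by
  unfold iend
  by_cases h1 : s e ∈ X
  · rw [if_pos h1]; exact h1
  · rw [if_neg h1]
    by_contra h2
    exact h ⟨fun h => absurd h h1, fun h => absurd h h2⟩

theorem at_iend {s t : E → V} {X : Finset V} {e : E} (h : ¬ (s e ∈ X ↔ t e ∈ X)) {v : V}
    (hv : v ∈ X) : At s t v e ↔ iend s t X e = v := by
  unfold At iend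
  by_cases h1 : s e ∈ X
  · rw [if_pos h1]
    have h2 : t e ∉ X := fun h' => h ⟨fun _ => h', fun _ => h1⟩
    constructor
    · rintro (h3 | h3)
      · exact h3
      · rw [h3] at h2
        exact absurd hv h2
    · exact Or.inl
  · rw [if_neg h1]
    constructor
    · rintro (h3 | h3)
      · rw [h3] at h1
        exact absurd hv h1
      · exact h3
    · exact Or.inr

theorem at_of_iend {s t : E → V} {X : Finset V} {e : E} : At s t (iend s t X e) e := by
  unfold At iend
  split_ifs <;> simp

theorem inc_iend {s t : E → V} {X : Finset V} {e : E} (h : ¬ (s e ∈ X ↔ t e ∈ X)) {v : V}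
    (hv : v ∈ X) : inc s t v e = sgn s X e * (if iend s t X e = v then 1 else 0) := by
  unfold inc iend sgn
  by_cases h1 : s e ∈ X
  · have h2 : t e ∉ X := fun h' => h ⟨fun _ => h', fun _ => h1⟩
    have h3 : t e ≠ v := fun h' => h2 (h' ▸ hv)
    simp [h1, h3]
  · have h3 : s e ≠ v := fun h' => h1 (h' ▸ hv)
    simp only [h1, h3, if_false]
    ring

theorem sgn_sq (s : E → V) (X : Finset V) (e : E) : sgn s X e * sgn s X e = 1 := by
  unfold sgn
  split_ifs <;> norm_num

theorem sgn_compl (s : E → V) (X : Finset V) (e : E) : sgn s Xᶜ e = - sgn s X e := by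
  unfold sgn
  by_cases h : s e ∈ X <;> simp [h]

namespace TwoCut

variable {F : Finset E} {s t : E → V} {X : Finset V} {e f : E}

theorem inc_side (h : TwoCut F s t X e f) {v : V} (hv : v ∈ X) :
    inc (sideS s t X e f) (sideT s t X e f) v e
      = inc s t v e + inc s t v f * (-(sgn s X e * sgn s X f)) := by
  rw [inc_iend h.mem_e.2 hv, inc_iend h.mem_f.2 hv]
  have h1 : inc (sideS s t X e f) (sideT s t X e f) v e
      = sgn s X e * ((if iend s t X e = v then 1 else 0) - (if iend s t X f = v then 1 else 0)) := by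
    unfold inc sideS sideT
    rw [Function.update_self, Function.update_self]
    by_cases h2 : s e ∈ X
    · have h3 : iend s t X e = s e := by unfold iend; rw [if_pos h2]
      rw [if_pos h2, if_pos h2, h3]
      unfold sgn
      rw [if_pos h2]
      ring
    · have h3 : iend s t X e = t e := by unfold iend; rw [if_neg h2]
      rw [if_neg h2, if_neg h2, h3]
      unfold sgn
      rw [if_neg h2]
      ring
  rw [h1]
  have h2 := sgn_sq s X f
  linear_combination (sgn s X e * (if iend s t X f = v then 1 else 0)) * (h2)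

theorem inc_side_ne {g : E} (hg : g ≠ e) (v : V) :
    inc (sideS s t X e f) (sideT s t X e f) v g = inc s t v g := by
  unfold inc sideS sideT
  rw [Function.update_of_ne hg, Function.update_of_ne hg]

theorem at_side_ne {g : E} (hg : g ≠ e) (v : V) :
    At (sideS s t X e f) (sideT s t X e f) v g ↔ At s t v g := by
  unfold At sideS sideT
  rw [Function.update_of_ne hg, Function.update_of_ne hg]

theorem at_side (v : V) :
    At (sideS s t X e f) (sideT s t X e f) v e ↔ (iend s t X e = v ∨ iend s t X f = v) := by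
  unfold At sideS sideT
  rw [Function.update_self, Function.update_self]
  by_cases h2 : s e ∈ X
  · have h3 : iend s t X e = s e := by unfold iend; rw [if_pos h2]
    rw [if_pos h2, if_pos h2, h3]
  · have h3 : iend s t X e = t e := by unfold iend; rw [if_neg h2]
    rw [if_neg h2, if_neg h2, h3]
    exact or_comm

theorem iend_ne (h : TwoCut F s t X e f) : iend s t X e ≠ iend s t X f := by
  intro heq
  apply h.noshare (iend s t X e)
  exact ⟨at_of_iend, heq ▸ at_of_iend⟩

theorem side_loopless (h : TwoCut F s t X e f) :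
    ∀ g ∈ sideF F s t X e, sideS s t X e f g ≠ sideT s t X e f g := by
  intro g hg
  by_cases hge : g = e
  · subst hge
    unfold sideS sideT
    rw [Function.update_self, Function.update_self]
    by_cases h2 : s g ∈ X
    · have h3 : iend s t X g = s g := by unfold iend; rw [if_pos h2]
      rw [if_pos h2, if_pos h2, ← h3]
      exact h.iend_ne
    · have h3 : iend s t X g = t g := by unfold iend; rw [if_neg h2]
      rw [if_neg h2, if_neg h2, ← h3]
      exact h.iend_ne.symm
  · unfold sideS sideT
    rw [Function.update_of_ne hge, Function.update_of_ne hge]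
    exact h.loopless g (h.side_sub hg)

theorem side_cut_aux (h : TwoCut F s t X e f) {Z : Finset V} (hZ : iend s t X f ∉ Z) :
    cut F s t (Z ∩ X) = cut (sideF F s t X e) (sideS s t X e f) (sideT s t X e f) Z := by
  have hfe := iend_mem h.mem_f.2
  have hee := iend_mem h.mem_e.2
  ext g
  rw [mem_cut, mem_cut, mem_inter, mem_inter]
  by_cases hge : g = e
  · subst hge
    have h1 := h.mem_e
    have h2 := h.e_mem
    unfold sideS sideT
    rw [Function.update_self, Function.update_self]
    by_cases h4 : s g ∈ X
    · have h5 : t g ∉ X := fun h' => h1.2 ⟨fun _ => h', fun _ => h4⟩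
      simp [h1.1, h2, h4, h5, hZ]
    · have h5 : t g ∈ X := by
        by_contra h5
        exact h1.2 ⟨fun h => absurd h h4, fun h => absurd h h5⟩
      simp [h1.1, h2, h4, h5, hZ]
  · unfold sideS sideT
    rw [Function.update_of_ne hge, Function.update_of_ne hge]
    by_cases hgf : g = f
    · subst hgf
      have h1 := h.mem_f
      have h2 := h.f_notMem
      by_cases h4 : s g ∈ X
      · have h5 : t g ∉ X := fun h' => h1.2 ⟨fun _ => h', fun _ => h4⟩
        have h6 : iend s t X g = s g := by unfold iend; rw [if_pos h4]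
        rw [h6] at hZ
        simp [h1.1, h2, h4, h5, hZ]
      · have h5 : t g ∈ X := by
          by_contra h5
          exact h1.2 ⟨fun h => absurd h h4, fun h => absurd h h5⟩
        have h6 : iend s t X g = t g := by unfold iend; rw [if_neg h4]
        rw [h6] at hZ
        simp [h1.1, h2, h4, h5, hZ]
    · unfold sideF
      rw [mem_insert, mem_filter]
      by_cases hgF : g ∈ F
      · have h1 := h.other hgF hge hgf
        by_cases h4 : s g ∈ X
        · have h5 := h1.mp h4
          simp [h4, h5, hgF]
        · have h5 : t g ∉ X := fun h => h4 (h1.mpr h)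
          simp [h4, h5, hge]
      · simp [hge, hgF]

theorem side_cut (h : TwoCut F s t X e f) (Z : Finset V) :
    ∃ Z' : Finset V, cut F s t Z' = cut (sideF F s t X e) (sideS s t X e f) (sideT s t X e f) Z := by
  by_cases hZ : iend s t X f ∈ Z
  · refine ⟨Zᶜ ∩ X, ?_⟩
    rw [h.side_cut_aux (by rw [mem_compl]; exact fun h' => h' hZ), cut_compl]
  · exact ⟨Z ∩ X, h.side_cut_aux hZ⟩

theorem side_cut_two (h : TwoCut F s t X e f) {Z : Finset V} {g : E}
    (hZ : cut (sideF F s t X e) (sideS s t X e f) (sideT s t X e f) Z = {e, g}) (hg : g ≠ e) :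
    g ≠ f ∧ (∃ Z' : Finset V, cut F s t Z' = {e, g}) ∧ ∃ Z' : Finset V, cut F s t Z' = {f, g} := by
  have hgf : g ≠ f := by
    rintro rfl
    have h1 : g ∈ cut (sideF F s t X e) (sideS s t X e g) (sideT s t X e g) Z := by
      rw [hZ]; simp
    exact h.f_notMem (mem_cut.mp h1).1
  obtain ⟨Z', hZ'⟩ := h.side_cut Z
  rw [hZ] at hZ'
  refine ⟨hgf, ⟨Z', hZ'⟩, symmDiff Z' X, ?_⟩
  rw [cut_symmDiff, hZ', h.cut_eq]
  have h1 := h.ne
  ext x
  rw [mem_symmDiff, mem_insert, mem_insert, mem_singleton, mem_singleton, mem_insert, mem_singleton]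
  by_cases hx1 : x = e
  · subst hx1
    simp [h1, hg.symm]
  · by_cases hx2 : x = f
    · subst hx2
      simp [hx1, hgf.symm]
    · simp [hx1, hx2]

end TwoCut

/-- every nonempty cut has two edges, and the edges of a cut of size two share no end -/
structure Rich (F : Finset E) (s t : E → V) : Prop where
  two : ∀ Z : Finset V, (cut F s t Z).Nonempty → 2 ≤ (cut F s t Z).card
  share : ∀ (Z : Finset V) (g g' : E), g ≠ g' → cut F s t Z = {g, g'} →
    ∀ v, ¬ (At s t v g ∧ At s t v g')

namespace TwoCut

variable {F : Finset E} {s t : E → V} {X : Finset V} {e f : E}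

theorem side_rich (h : TwoCut F s t X e f) (hR : Rich F s t) :
    Rich (sideF F s t X e) (sideS s t X e f) (sideT s t X e f) where
  two := by
    intro Z hZ
    obtain ⟨Z', hZ'⟩ := h.side_cut Z
    rw [← hZ'] at hZ ⊢
    exact hR.two Z' hZ
  share := by
    have key : ∀ (Z : Finset V) (g : E), g ≠ e →
        cut (sideF F s t X e) (sideS s t X e f) (sideT s t X e f) Z = {e, g} →
        ∀ v, ¬ (At (sideS s t X e f) (sideT s t X e f) v e ∧
          At (sideS s t X e f) (sideT s t X e f) v g) := by
      rintro Z g hg hZ v ⟨h1, h2⟩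
      rw [at_side] at h1
      rw [at_side_ne hg] at h2
      obtain ⟨hgf, ⟨Z1, hZ1⟩, ⟨Z2, hZ2⟩⟩ := h.side_cut_two hZ hg
      rcases h1 with rfl | rfl
      · exact hR.share Z1 e g hg.symm hZ1 _ ⟨at_of_iend, h2⟩
      · exact hR.share Z2 f g hgf.symm hZ2 _ ⟨at_of_iend, h2⟩
    rintro Z g g' hne hZ v ⟨h1, h2⟩
    by_cases hg : g = e
    · subst hg
      exact key Z g' hne.symm hZ v ⟨h1, h2⟩
    · by_cases hg' : g' = e
      · subst hg'
        rw [Finset.pair_comm] at hZ
        exact key Z g hne hZ v ⟨h2, h1⟩
      · rw [at_side_ne hg] at h1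
        rw [at_side_ne hg'] at h2
        obtain ⟨Z', hZ'⟩ := h.side_cut Z
        rw [hZ] at hZ'
        exact hR.share Z' g g' hne hZ' v ⟨h1, h2⟩

theorem side_deg (h : TwoCut F s t X e f) (v : V) :
    ((sideF F s t X e).filter
      (fun g => sideS s t X e f g = v ∨ sideT s t X e f g = v)).card
      ≤ (F.filter (fun g => s g = v ∨ t g = v)).card := by
  apply Finset.card_le_card_of_injOn (fun g => if g = e ∧ iend s t X f = v then f else g)
  · intro g hg
    rw [Finset.mem_coe, mem_filter] at hg
    rw [Finset.mem_coe, mem_filter]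
    change g ∈ sideF F s t X e ∧ At (sideS s t X e f) (sideT s t X e f) v g at hg
    change (if g = e ∧ iend s t X f = v then f else g) ∈ F ∧
      At s t v (if g = e ∧ iend s t X f = v then f else g)
    by_cases hge : g = e
    · subst hge
      by_cases hv : iend s t X f = v
      · rw [if_pos ⟨rfl, hv⟩]
        exact ⟨h.mem_f.1, hv ▸ at_of_iend⟩
      · rw [if_neg (fun h => hv h.2)]
        refine ⟨h.mem_e.1, ?_⟩
        have := (at_side v).mp hg.2
        exact (this.resolve_right hv) ▸ at_of_iend
    · rw [if_neg (fun h => hge h.1)]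
      exact ⟨h.side_sub hg.1, (at_side_ne hge v).mp hg.2⟩
  · intro g hg g' hg' heq
    rw [Finset.mem_coe, mem_filter] at hg hg'
    change (if g = e ∧ iend s t X f = v then f else g)
      = (if g' = e ∧ iend s t X f = v then f else g') at heq
    have hgf : g ≠ f := by rintro rfl; exact h.f_notMem hg.1
    have hgf' : g' ≠ f := by rintro rfl; exact h.f_notMem hg'.1
    split_ifs at heq with h1 h2 h2
    · exact h1.1.trans h2.1.symm
    · exact absurd heq.symm hgf'
    · exact absurd heq hgf
    · exact heq

end TwoCut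

end Pool.Agent.ConfFlow
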