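import Mathlib
import Pool.Agent.ConfFlow.Glue

set_option autoImplicit false
set_option linter.unusedSectionVars false
set_option linter.unusedVariables false

open Finset

namespace Pool.Agent.ConfFlow

variable {V E : Type} [Fintype V] [Fintype E] [DecidableEq V] [DecidableEq E]

theorem exists_move {ι : Type} [DecidableEq ι] {x y : ι → ZMod 3} (hx : x ≠ 0) (hy : y ≠ 0) :
    ∃ L : (ι → ZMod 3) →+ (ι → ZMod 3), Function.Injective L ∧ L x = y := by
  obtain ⟨i, hi⟩ := Function.ne_iff.mp hx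
  obtain ⟨k, hk⟩ := Function.ne_iff.mp hy
  rw [Pi.zero_apply] at hi hk
  let σ : ι → ι := Equiv.swap i k
  have hσ : σ k = i := Equiv.swap_apply_right i k
  let L : (ι → ZMod 3) →+ (ι → ZMod 3) :=
    { toFun := fun z j => z (σ j) + z i * (x i)⁻¹ * (y j - x (σ j))
      map_zero' := by
        ext j
        simp
      map_add' := by
        intro a b
        ext j
        simp only [Pi.add_apply]
        ring }
  have hL : ∀ z j, L z j = z (σ j) + z i * (x i)⁻¹ * (y j - x (σ j)) := fun z j => rfl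
  refine ⟨L, ?_, ?_⟩
  · rw [injective_iff_map_eq_zero]
    intro z hz
    have h1 := congrFun hz k
    rw [hL, hσ, Pi.zero_apply] at h1
    have h2 : z i * (x i)⁻¹ * y k = 0 := by
      have h3 : (x i)⁻¹ * x i = 1 := inv_mul_cancel₀ hi
      linear_combination h1 + z i * h3
    have h4 : z i = 0 := by
      rcases mul_eq_zero.mp h2 with h | h
      · rcases mul_eq_zero.mp h with h' | h'
        · exact h'
        · exact absurd h' (inv_ne_zero hi)
      · exact absurd h hk
    ext j
    have h5 := congrFun hz (σ j)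
    rw [hL, h4, zero_mul, zero_mul, add_zero] at h5
    have h6 : σ (σ j) = j := Equiv.swap_apply_self i k j
    rw [h6] at h5
    exact h5
  · ext j
    rw [hL, mul_inv_cancel₀ hi]
    ring

theorem bd_eq_inc {A : Type} [AddCommGroup A] (F : Finset E) (s t : E → V) (φ : E → A) (v : V) :
    bd F s t φ v = ∑ g ∈ F, inc s t v g • φ g := by
  unfold bd inc
  rw [Finset.sum_filter, Finset.sum_filter, ← Finset.sum_sub_distrib]
  apply Finset.sum_congr rfl
  intro g _
  split_ifs <;> simp

namespace TwoCut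

variable {F : Finset E} {s t : E → V} {X : Finset V} {e f : E}

theorem half_bd (h : TwoCut F s t X e f) {A : Type} [AddCommGroup A] {φ φ1 : E → A}
    (h1 : ∀ g ∈ sideF F s t X e, φ g = φ1 g) (h2 : φ f = (-(sgn s X e * sgn s X f)) • φ1 e)
    {v : V} (hv : v ∈ X) :
    bd F s t φ v = bd (sideF F s t X e) (sideS s t X e f) (sideT s t X e f) φ1 v := by
  rw [bd_eq_inc, bd_eq_inc]
  have hsub : insert f (sideF F s t X e) ⊆ F := insert_subset h.mem_f.1 h.side_sub
  rw [← Finset.sum_subset hsub (f := fun g => inc s t v g • φ g)]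
  · rw [Finset.sum_insert h.f_notMem]
    have heS : e ∉ F.filter (fun g => s g ∈ X ∧ t g ∈ X) := by
      intro h'
      rw [mem_filter] at h'
      exact h.mem_e.2 ⟨fun _ => h'.2.2, fun _ => h'.2.1⟩
    have hrest : ∑ g ∈ F.filter (fun g => s g ∈ X ∧ t g ∈ X), inc s t v g • φ g
        = ∑ g ∈ F.filter (fun g => s g ∈ X ∧ t g ∈ X),
          inc (sideS s t X e f) (sideT s t X e f) v g • φ1 g := by
      apply Finset.sum_congr rfl
      intro g hg
      have hge : g ≠ e := by rintro rfl; exact heS hg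
      rw [inc_side_ne hge, h1 g (mem_insert_of_mem hg)]
    unfold sideF
    rw [Finset.sum_insert heS, Finset.sum_insert heS, hrest, h.inc_side hv, h2,
      h1 e h.e_mem, add_smul, mul_smul]
    abel
  · intro g hg hg2
    rw [mem_insert, not_or] at hg2
    have hge : g ≠ e := by rintro rfl; exact hg2.2 h.e_mem
    have h3 := h.other hg hge hg2.1
    have h4 : s g ∉ X := by
      intro h4
      apply hg2.2
      unfold sideF
      exact mem_insert_of_mem (mem_filter.mpr ⟨hg, h4, h3.mp h4⟩)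
    have h5 : t g ∉ X := fun h' => h4 (h3.mpr h')
    have h7 : s g ≠ v := by rintro h'; rw [h'] at h4; exact h4 hv
    have h8 : t g ≠ v := by rintro h'; rw [h'] at h5; exact h5 hv
    have h6 : inc s t v g = 0 := by
      unfold inc
      rw [if_neg h7, if_neg h8]
      rfl
    rw [h6, zero_smul]

/-- the edge of the side graph that corresponds to `g` -/
def proj (e f : E) (g : E) : E := if g = f then e else g

theorem not_at_inc {v : V} {g : E} (h : ¬ At s t v g) : inc s t v g = 0 := by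
  unfold At at h
  push Not at h
  unfold inc
  rw [if_neg h.1, if_neg h.2]
  rfl

theorem half_map (h : TwoCut F s t X e f) {v : V} (hv : v ∈ X) {g : E} (hg : g ∈ F)
    (hat : At s t v g) :
    proj e f g ∈ sideF F s t X e ∧
      At (sideS s t X e f) (sideT s t X e f) v (proj e f g) ∧
      ∀ (A : Type) [AddCommGroup A] (φ φ1 : E → A),
        (∀ g ∈ sideF F s t X e, φ g = φ1 g) → φ f = (-(sgn s X e * sgn s X f)) • φ1 e →
        inc s t v g • φ g
          = inc (sideS s t X e f) (sideT s t X e f) v (proj e f g) • φ1 (proj e f g) := by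
  by_cases hgf : g = f
  · subst hgf
    have hp : proj e g g = e := by unfold proj; rw [if_pos rfl]
    rw [hp]
    refine ⟨h.e_mem, ?_, ?_⟩
    · rw [at_side]
      right
      exact (at_iend h.mem_f.2 hv).mp hat
    · intro A _ φ φ1 h1 h2
      have h3 : ¬ At s t v e := fun h' => h.noshare v ⟨h', hat⟩
      rw [h.inc_side hv, not_at_inc h3, zero_add, h2, mul_smul]
  · have hp : proj e f g = g := by unfold proj; rw [if_neg hgf]
    rw [hp]
    by_cases hge : g = e
    · subst hge
      refine ⟨h.e_mem, ?_, ?_⟩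
      · rw [at_side]
        left
        exact (at_iend h.mem_e.2 hv).mp hat
      · intro A _ φ φ1 h1 h2
        have h3 : ¬ At s t v f := fun h' => h.noshare v ⟨hat, h'⟩
        rw [h.inc_side hv, not_at_inc h3, zero_mul, add_zero, h1 g h.e_mem]
    · have h3 := h.other hg hge hgf
      have h4 : s g ∈ X ∧ t g ∈ X := by
        rcases hat with h4 | h4
        · rw [← h4] at hv
          exact ⟨hv, h3.mp hv⟩
        · rw [← h4] at hv
          exact ⟨h3.mpr hv, hv⟩
      have h5 : g ∈ sideF F s t X e := mem_insert_of_mem (mem_filter.mpr ⟨hg, h4⟩)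
      refine ⟨h5, (at_side_ne hge v).mpr hat, ?_⟩
      intro A _ φ φ1 h1 h2
      rw [inc_side_ne hge, h1 g h5]

theorem proj_inj (h : TwoCut F s t X e f) {v : V} {g g' : E} (hat : At s t v g)
    (hat' : At s t v g') (heq : proj e f g = proj e f g') : g = g' := by
  unfold proj at heq
  split_ifs at heq with h1 h2 h2
  · exact h1.trans h2.symm
  · subst h1
    subst heq
    exact absurd ⟨hat', hat⟩ (h.noshare v)
  · subst h2
    subst heq
    exact absurd ⟨hat, hat'⟩ (h.noshare v)
  · exact heq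

/-- glued function -/
def gl {A : Type} (F : Finset E) (s t : E → V) (X : Finset V) (e : E) (φ1 φ2 : E → A) : E → A :=
  fun g => if g ∈ sideF F s t X e then φ1 g else φ2 g

theorem gl_left {A : Type} {φ1 φ2 : E → A} : ∀ g ∈ sideF F s t X e,
    gl F s t X e φ1 φ2 g = φ1 g := fun g hg => if_pos hg

theorem gl_f (h : TwoCut F s t X e f) {A : Type} {φ1 φ2 : E → A} :
    gl F s t X e φ1 φ2 f = φ2 f := if_neg h.f_notMem

theorem gl_right (h : TwoCut F s t X e f) {A : Type} {φ1 φ2 : E → A} :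
    ∀ g ∈ sideF F s t Xᶜ f, gl F s t X e φ1 φ2 g = φ2 g := by
  intro g hg
  unfold gl
  rw [if_neg]
  intro hg1
  have hgf : g ≠ f := by rintro rfl; exact h.f_notMem hg1
  have hge : g ≠ e := by rintro rfl; exact h.compl.f_notMem hg
  unfold sideF at hg hg1
  rw [mem_insert, mem_filter, mem_compl, mem_compl] at hg
  rw [mem_insert, mem_filter] at hg1
  exact (hg.resolve_left hgf).2.1 (hg1.resolve_left hge).2.1

theorem gl_e (h : TwoCut F s t X e f) {A : Type} [AddCommGroup A] {φ1 φ2 : E → A}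
    (hf : φ2 f = (-(sgn s X e * sgn s X f)) • φ1 e) :
    gl F s t X e φ1 φ2 e = (-(sgn s Xᶜ f * sgn s Xᶜ e)) • φ2 f := by
  rw [gl_left e h.e_mem, hf, ← mul_smul, sgn_compl, sgn_compl]
  have h1 := sgn_sq s X e
  have h2 := sgn_sq s X f
  have h3 : -(-sgn s X f * -sgn s X e) * -(sgn s X e * sgn s X f) = 1 := by
    linear_combination (sgn s X f * sgn s X f) * h1 + h2
  rw [h3, one_smul]

theorem glue (h : TwoCut F s t X e f) {q : ℕ} {f1 f2 : E → ZMod q} {ψ1 ψ2 : E → Idx → ZMod 3}
    (G1 : Good (sideF F s t X e) (sideS s t X e f) (sideT s t X e f) q f1 ψ1)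
    (G2 : Good (sideF F s t Xᶜ f) (sideS s t Xᶜ f e) (sideT s t Xᶜ f e) q f2 ψ2)
    (hf : f2 f = (-(sgn s X e * sgn s X f)) • f1 e)
    (hψ : ψ2 f = (-(sgn s X e * sgn s X f)) • ψ1 e) :
    Good F s t q (gl F s t X e f1 f2) (gl F s t X e ψ1 ψ2) := by
  have hflow : ∀ (A : Type) [AddCommGroup A] (φ1 φ2 : E → A),
      IsFlow (sideF F s t X e) (sideS s t X e f) (sideT s t X e f) φ1 →
      IsFlow (sideF F s t Xᶜ f) (sideS s t Xᶜ f e) (sideT s t Xᶜ f e) φ2 →
      φ2 f = (-(sgn s X e * sgn s X f)) • φ1 e → IsFlow F s t (gl F s t X e φ1 φ2) := by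
    intro A _ φ1 φ2 h1 h2 h3 v
    by_cases hv : v ∈ X
    · rw [h.half_bd (φ1 := φ1) gl_left (by rw [h.gl_f, h3]) hv]
      exact h1 v
    · have hv' : v ∈ Xᶜ := mem_compl.mpr hv
      rw [h.compl.half_bd (φ1 := φ2) h.gl_right (h.gl_e h3) hv']
      exact h2 v
  refine ⟨hflow _ f1 f2 G1.flow1 G2.flow1 hf, hflow _ ψ1 ψ2 G1.flow2 G2.flow2 hψ, ?_, ?_⟩
  · intro g hg
    by_cases h1 : g ∈ sideF F s t X e
    · rw [gl_left g h1]
      exact G1.nz g h1
    · have h2 : g ∈ sideF F s t Xᶜ f := by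
        by_cases hgf : g = f
        · rw [hgf]
          exact h.compl.e_mem
        · have hge : g ≠ e := by rintro rfl; exact h1 h.e_mem
          have h3 := h.other hg hge hgf
          have h4 : s g ∉ X := by
            intro h4
            exact h1 (mem_insert_of_mem (mem_filter.mpr ⟨hg, h4, h3.mp h4⟩))
          have h5 : t g ∉ X := fun h' => h4 (h3.mpr h')
          exact mem_insert_of_mem (mem_filter.mpr ⟨hg, mem_compl.mpr h4, mem_compl.mpr h5⟩)
      rw [h.gl_right g h2]
      exact G2.nz g h2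
  · rintro v g hg g' hg' hne hat hat' ⟨H1, H2⟩
    by_cases hv : v ∈ X
    · obtain ⟨a1, a2, a3⟩ := h.half_map hv hg hat
      obtain ⟨b1, b2, b3⟩ := h.half_map hv hg' hat'
      apply G1.conf v (proj e f g) a1 (proj e f g') b1 (fun heq => hne (h.proj_inj hat hat' heq))
        a2 b2
      constructor
      · rw [← a3 _ (gl F s t X e f1 f2) f1 gl_left (by rw [h.gl_f, hf]),
          ← b3 _ (gl F s t X e f1 f2) f1 gl_left (by rw [h.gl_f, hf])]
        exact H1
      · rw [← a3 _ (gl F s t X e ψ1 ψ2) ψ1 gl_left (by rw [h.gl_f, hψ]),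
          ← b3 _ (gl F s t X e ψ1 ψ2) ψ1 gl_left (by rw [h.gl_f, hψ])]
        exact H2
    · have hv' : v ∈ Xᶜ := mem_compl.mpr hv
      obtain ⟨a1, a2, a3⟩ := h.compl.half_map hv' hg hat
      obtain ⟨b1, b2, b3⟩ := h.compl.half_map hv' hg' hat'
      apply G2.conf v (proj f e g) a1 (proj f e g') b1
        (fun heq => hne (h.compl.proj_inj hat hat' heq)) a2 b2
      constructor
      · rw [← a3 _ (gl F s t X e f1 f2) f2 h.gl_right (h.gl_e hf),
          ← b3 _ (gl F s t X e f1 f2) f2 h.gl_right (h.gl_e hf)]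
        exact H1
      · rw [← a3 _ (gl F s t X e ψ1 ψ2) ψ2 h.gl_right (h.gl_e hψ),
          ← b3 _ (gl F s t X e ψ1 ψ2) ψ2 h.gl_right (h.gl_e hψ)]
        exact H2

end TwoCut

theorem Good.move {F : Finset E} {s t : E → V} {q : ℕ} {f : E → ZMod q} {ψ : E → Idx → ZMod 3}
    (h : Good F s t q f ψ) (L : (Idx → ZMod 3) →+ (Idx → ZMod 3)) (hL : Function.Injective L) :
    Good F s t q f (fun e => L (ψ e)) where
  flow1 := h.flow1
  flow2 := h.flow2.map L
  nz := by
    intro e he h0
    exact h.nz e he (hL (by rw [h0, map_zero]))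
  conf := by
    rintro v e he e' he' hne hv hv' ⟨H1, H2⟩
    refine h.conf v e he e' he' hne hv hv' ⟨H1, ?_⟩
    apply hL
    rw [map_zero, map_add, map_zsmul, map_zsmul]
    exact H2

/-- the step of the induction -/
theorem rich_step {n Δ : ℕ} {F : Finset E} {s t : E → V}
    (ih : ∀ (F' : Finset E) (s' t' : E → V), F'.card < F.card → (∀ g ∈ F', s' g ≠ t' g) →
      Rich F' s' t' → (∀ v, (F'.filter (fun e => s' e = v ∨ t' e = v)).card ≤ Δ) →
      ∀ e0 ∈ F', ∀ a : ZMod (2 * n + 1), ∃ f ψ, Good F' s' t' (2 * n + 1) f ψ ∧ f e0 = a)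
    (hR : Rich F s t) (hΔ : ∀ v, (F.filter (fun e => s e = v ∨ t e = v)).card ≤ Δ)
    {X : Finset V} {e f : E} (h : TwoCut F s t X e f) {e0 : E} (he0 : e0 ∈ sideF F s t X e)
    (a : ZMod (2 * n + 1)) : ∃ f ψ, Good F s t (2 * n + 1) f ψ ∧ f e0 = a := by
  obtain ⟨f1, ψ1, G1, ha⟩ := ih (sideF F s t X e) (sideS s t X e f) (sideT s t X e f)
    h.side_card h.side_loopless (h.side_rich hR) (fun v => (h.side_deg v).trans (hΔ v)) e0 he0 a
  obtain ⟨f2, ψ2, G2, ha2⟩ := ih (sideF F s t Xᶜ f) (sideS s t Xᶜ f e) (sideT s t Xᶜ f e)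
    h.compl.side_card h.compl.side_loopless (h.compl.side_rich hR)
    (fun v => (h.compl.side_deg v).trans (hΔ v)) f h.compl.e_mem
    ((-(sgn s X e * sgn s X f)) • f1 e)
  have hy : (-(sgn s X e * sgn s X f)) • ψ1 e ≠ 0 := by
    intro h0
    have h1 : -(sgn s X e * sgn s X f) = 1 ∨ -(sgn s X e * sgn s X f) = -1 := by
      unfold sgn
      split_ifs <;> norm_num
    exact G1.nz e h.e_mem (unit_smul_eq_zero h1 h0)
  obtain ⟨L, hL, hL2⟩ := exists_move (G2.nz f h.compl.e_mem) hy
  refine ⟨_, _, h.glue G1 (G2.move L hL) ha2 hL2, ?_⟩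
  rw [TwoCut.gl_left e0 he0, ha]

theorem rich_exists {n Δ : ℕ} (hn : Δ < 2 ^ n) : ∀ (N : ℕ) (F : Finset E) (s t : E → V),
    F.card = N → (∀ g ∈ F, s g ≠ t g) → Rich F s t →
    (∀ v, (F.filter (fun e => s e = v ∨ t e = v)).card ≤ Δ) →
    ∀ e0 ∈ F, ∀ a : ZMod (2 * n + 1), ∃ f ψ, Good F s t (2 * n + 1) f ψ ∧ f e0 = a := by
  intro N
  induction N using Nat.strong_induction_on with
  | _ N IH =>
    intro F s t hN hF hR hΔ e0 he0 a
    have ih : ∀ (F' : Finset E) (s' t' : E → V), F'.card < F.card → (∀ g ∈ F', s' g ≠ t' g) →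
      Rich F' s' t' → (∀ v, (F'.filter (fun e => s' e = v ∨ t' e = v)).card ≤ Δ) →
      ∀ e0 ∈ F', ∀ a : ZMod (2 * n + 1), ∃ f ψ, Good F' s' t' (2 * n + 1) f ψ ∧ f e0 = a :=
      fun F' s' t' hlt h1 h2 h3 => IH F'.card (hN ▸ hlt) F' s' t' rfl h1 h2 h3
    by_cases h3 : ∀ Z : Finset V, (cut F s t Z).Nonempty → 3 ≤ (cut F s t Z).card
    · exact base hF h3 hΔ hn he0 a
    · push Not at h3
      obtain ⟨X, hX1, hX2⟩ := h3
      have h2 := hR.two X hX1
      have hcard : (cut F s t X).card = 2 := by omega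
      obtain ⟨e, f, hne, hcut⟩ := card_eq_two.mp hcard
      have h : TwoCut F s t X e f := ⟨hF, hne, hcut, hR.share X e f hne hcut⟩
      by_cases h0 : e0 ∈ sideF F s t X e
      · exact rich_step ih hR hΔ h h0 a
      · have h0' : e0 ∈ sideF F s t Xᶜ f := by
          by_cases hgf : e0 = f
          · rw [hgf]
            exact h.compl.e_mem
          · have hge : e0 ≠ e := by rintro rfl; exact h0 h.e_mem
            have h3 := h.other he0 hge hgf
            have h4 : s e0 ∉ X := by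
              intro h4
              exact h0 (mem_insert_of_mem (mem_filter.mpr ⟨he0, h4, h3.mp h4⟩))
            have h5 : t e0 ∉ X := fun h' => h4 (h3.mpr h')
            exact mem_insert_of_mem (mem_filter.mpr ⟨he0, mem_compl.mpr h4, mem_compl.mpr h5⟩)
        exact rich_step ih hR hΔ h.compl h0' a

end Pool.Agent.ConfFlow
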