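import Mathlib
import Pool.Agent.ConfFlow.Basic

set_option autoImplicit false
set_option linter.unusedSectionVars false
set_option linter.unusedVariables false

open Finset

namespace Pool.Agent.ConfFlow

variable {V E : Type} [Fintype V] [Fintype E] [DecidableEq V] [DecidableEq E]

/-- a residual chain from `u` to `w` inside `U` -/
def Res (F : Finset E) (s t : E → V) (Φ : E → ℤ) (u : V) (U : Finset V) (w : V) (P : E → ℤ) :
    Prop :=
  (∀ e, P e ≠ 0 → s e ∈ U ∧ t e ∈ U) ∧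
  (∀ e, P e = 0 ∨ (P e = 1 ∧ 0 < Φ e) ∨ (P e = -1 ∧ Φ e < 0)) ∧
  ∀ v, bd F s t P v = (if u = v then 1 else 0) - (if w = v then 1 else 0)

theorem Res.mono {F : Finset E} {s t : E → V} {Φ : E → ℤ} {u : V} {U U' : Finset V} {w : V}
    {P : E → ℤ} (h : Res F s t Φ u U w P) (hU : U ⊆ U') : Res F s t Φ u U' w P :=
  ⟨fun e he => ⟨hU (h.1 e he).1, hU (h.1 e he).2⟩, h.2.1, h.2.2⟩

theorem Res.extend {F : Finset E} {s t : E → V} (hF : ∀ e ∈ F, s e ≠ t e) {Φ : E → ℤ} {u : V}
    {U : Finset V} {w w' : V} {P : E → ℤ} (h : Res F s t Φ u U w P) {e : E} (he : e ∈ F) {ε : ℤ}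
    (hε : (ε = 1 ∧ 0 < Φ e ∧ s e = w ∧ t e = w') ∨ (ε = -1 ∧ Φ e < 0 ∧ t e = w ∧ s e = w'))
    (hw : w ∈ U) (hw' : w' ∉ U) :
    Res F s t Φ u (insert w' U) w' (P + Pi.single e ε) := by
  have hPe : P e = 0 := by
    by_contra h0
    obtain ⟨h1, h2⟩ := h.1 e h0
    rcases hε with ⟨_, _, _, h3⟩ | ⟨_, _, _, h3⟩
    · exact hw' (h3 ▸ h2)
    · exact hw' (h3 ▸ h1)
  refine ⟨?_, ?_, ?_⟩
  · intro g hg
    by_cases hge : g = e
    · subst hge
      rcases hε with ⟨_, _, h2, h3⟩ | ⟨_, _, h2, h3⟩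
      · rw [h2, h3]
        exact ⟨mem_insert_of_mem hw, mem_insert_self _ _⟩
      · rw [h2, h3]
        exact ⟨mem_insert_self _ _, mem_insert_of_mem hw⟩
    · have : P g ≠ 0 := by simpa [hge] using hg
      obtain ⟨h1, h2⟩ := h.1 g this
      exact ⟨mem_insert_of_mem h1, mem_insert_of_mem h2⟩
  · intro g
    by_cases hge : g = e
    · subst hge
      right
      rw [Pi.add_apply, hPe, Pi.single_eq_same, zero_add]
      rcases hε with ⟨h1, h2, _⟩ | ⟨h1, h2, _⟩
      · exact Or.inl ⟨h1, h2⟩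
      · exact Or.inr ⟨h1, h2⟩
    · have : (P + Pi.single e ε : E → ℤ) g = P g := by simp [hge]
      rw [this]
      exact h.2.1 g
  · intro v
    rw [bd_add, h.2.2 v, bd_single hF he]
    rcases hε with ⟨h1, _, h2, h3⟩ | ⟨h1, _, h2, h3⟩
    · rw [h1, h2, h3]
      ring
    · rw [h1, h2, h3]
      split_ifs <;> ring

/-- lifts of a function to the integers, of absolute value less than `m` -/
def IsLift (m : ℕ) (φ : E → ZMod m) (Φ : E → ℤ) : Prop :=
  ∀ e, ((Φ e : ℤ) : ZMod m) = φ e ∧ |Φ e| < m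

/-- total imbalance -/
def imb (F : Finset E) (s t : E → V) (Φ : E → ℤ) : ℕ := ∑ v, (bd F s t Φ v).natAbs

theorem lift_step {F : Finset E} {s t : E → V} (hF : ∀ e ∈ F, s e ≠ t e) {m : ℕ} (hm : 0 < m)
    {φ : E → ZMod m} (hφ : IsFlow F s t φ) {Φ : E → ℤ} (hΦ : IsLift m φ Φ)
    (hne : ¬ IsFlow F s t Φ) :
    ∃ Φ' : E → ℤ, IsLift m φ Φ' ∧ imb F s t Φ' < imb F s t Φ := by
  classical
  have hdvd : ∀ v, (m : ℤ) ∣ bd F s t Φ v := by
    intro v
    rw [← ZMod.intCast_zmod_eq_zero_iff_dvd]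
    have h1 := bd_map (F := F) (s := s) (t := t) (Int.castAddHom (ZMod m)) Φ v
    have h2 : (fun e => (Int.castAddHom (ZMod m)) (Φ e)) = φ := by
      ext e
      exact (hΦ e).1
    rw [h2, hφ v] at h1
    exact h1.symm
  have htot : ∑ v, bd F s t Φ v = 0 := by
    rw [sum_bd]
    have : cut F s t univ = ∅ := by
      ext e
      simp [mem_cut]
    rw [this, sum_empty]
  obtain ⟨u, hu⟩ : ∃ u, 0 < bd F s t Φ u := by
    by_contra hcon
    push Not at hcon
    apply hne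
    intro v
    have h1 := (Finset.sum_eq_zero_iff_of_nonpos (fun v _ => hcon v)).mp htot
    exact h1 v (mem_univ v)
  let Q : Finset V → Prop := fun U => u ∈ U ∧ ∀ w ∈ U, ∃ P, Res F s t Φ u U w P
  have hQ0 : Q {u} := by
    refine ⟨mem_singleton_self u, ?_⟩
    intro w hw
    rw [mem_singleton] at hw
    subst hw
    refine ⟨0, ?_, ?_, ?_⟩
    · intro e he
      exact absurd rfl he
    · intro e
      exact Or.inl rfl
    · intro v
      rw [bd_zero]
      ring
  obtain ⟨U, hU, hmax⟩ := Finset.exists_max_image ((univ : Finset (Finset V)).filter Q) Finset.card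
    ⟨{u}, mem_filter.mpr ⟨mem_univ _, hQ0⟩⟩
  rw [mem_filter] at hU
  have hQ := hU.2
  have hstop : ∀ w w' : V, w ∈ U → w' ∉ U → ∀ e ∈ F, ∀ ε : ℤ,
      ¬ ((ε = 1 ∧ 0 < Φ e ∧ s e = w ∧ t e = w') ∨ (ε = -1 ∧ Φ e < 0 ∧ t e = w ∧ s e = w')) := by
    intro w w' hw hw' e he ε hε
    obtain ⟨P, hP⟩ := hQ.2 w hw
    have hnew : Q (insert w' U) := by
      refine ⟨mem_insert_of_mem hQ.1, ?_⟩
      intro x hx
      rw [mem_insert] at hx
      rcases hx with rfl | hx
      · exact ⟨_, hP.extend hF he hε hw hw'⟩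
      · obtain ⟨P', hP'⟩ := hQ.2 x hx
        exact ⟨P', hP'.mono (subset_insert _ _)⟩
    have := hmax _ (mem_filter.mpr ⟨mem_univ _, hnew⟩)
    rw [card_insert_of_notMem hw'] at this
    omega
  have hUsum : ∑ v ∈ U, bd F s t Φ v ≤ 0 := by
    rw [sum_bd]
    apply Finset.sum_nonpos
    intro e he
    rw [mem_cut] at he
    unfold sgn
    by_cases h1 : s e ∈ U
    · have h2 : t e ∉ U := fun h => he.2 ⟨fun _ => h, fun _ => h1⟩
      rw [if_pos h1, one_smul]
      by_contra h3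
      push Not at h3
      exact hstop (s e) (t e) h1 h2 e he.1 1 (Or.inl ⟨rfl, h3, rfl, rfl⟩)
    · have h2 : t e ∈ U := by
        by_contra h2
        exact he.2 ⟨fun h => absurd h h1, fun h => absurd h h2⟩
      rw [if_neg h1, neg_smul, one_smul]
      by_contra h3
      push Not at h3
      exact hstop (t e) (s e) h2 h1 e he.1 (-1) (Or.inr ⟨rfl, by omega, rfl, rfl⟩)
  obtain ⟨w, hwU, hw⟩ : ∃ w ∈ U, bd F s t Φ w < 0 := by
    by_contra hcon
    push Not at hcon
    have : 0 < ∑ v ∈ U, bd F s t Φ v := Finset.sum_pos' hcon ⟨u, hQ.1, hu⟩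
    omega
  obtain ⟨P, hP⟩ := hQ.2 w hwU
  have huw : u ≠ w := by
    rintro rfl
    omega
  have hmz : (0 : ℤ) < m := by exact_mod_cast hm
  have hbd : ∀ v, bd F s t (fun e => Φ e - m * P e) v
      = bd F s t Φ v - m * ((if u = v then 1 else 0) - (if w = v then 1 else 0)) := by
    intro v
    rw [← hP.2.2 v]
    have h1 : (fun e => Φ e - m * P e) = Φ + fun e => (AddMonoidHom.mulLeft (-(m : ℤ))) (P e) := by
      ext e
      simp only [Pi.add_apply, AddMonoidHom.coe_mulLeft]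
      ring
    rw [h1, bd_add, bd_map, AddMonoidHom.coe_mulLeft]
    ring
  refine ⟨fun e => Φ e - m * P e, ?_, ?_⟩
  · intro e
    obtain ⟨h1, h2⟩ := hΦ e
    refine ⟨?_, ?_⟩
    · push_cast
      rw [h1]
      simp
    · rw [abs_lt] at h2 ⊢
      beta_reduce
      rcases hP.2.1 e with h3 | ⟨h3, h4⟩ | ⟨h3, h4⟩
      · rw [h3, mul_zero, sub_zero]
        exact h2
      · rw [h3, mul_one]
        constructor <;> linarith
      · rw [h3]
        constructor <;> linarith
  · unfold imb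
    apply Finset.sum_lt_sum
    · intro v _
      rw [hbd v]
      by_cases h1 : u = v
      · subst h1
        rw [if_pos rfl, if_neg (Ne.symm huw)]
        have h2 : (m : ℤ) ≤ bd F s t Φ u := Int.le_of_dvd hu (hdvd u)
        omega
      · by_cases h2 : w = v
        · subst h2
          rw [if_neg h1, if_pos rfl]
          have h3 : (m : ℤ) ≤ -bd F s t Φ w :=
            Int.le_of_dvd (by omega) ((dvd_neg).mpr (hdvd w))
          omega
        · rw [if_neg h1, if_neg h2]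
          simp
    · refine ⟨u, mem_univ u, ?_⟩
      rw [hbd u, if_pos rfl, if_neg (Ne.symm huw)]
      have h2 : (m : ℤ) ≤ bd F s t Φ u := Int.le_of_dvd hu (hdvd u)
      omega

/-- Tutte: a flow with values in `ZMod m` lifts to an integer flow with values less than `m`. -/
theorem exists_lift {F : Finset E} {s t : E → V} (hF : ∀ e ∈ F, s e ≠ t e) {m : ℕ} (hm : 0 < m)
    {φ : E → ZMod m} (hφ : IsFlow F s t φ) :
    ∃ Φ : E → ℤ, IsFlow F s t Φ ∧ IsLift m φ Φ := by
  have key : ∀ (N : ℕ) (Φ : E → ℤ), IsLift m φ Φ → imb F s t Φ = N →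
      ∃ Φ' : E → ℤ, IsFlow F s t Φ' ∧ IsLift m φ Φ' := by
    intro N
    induction N using Nat.strong_induction_on with
    | _ N ih =>
      intro Φ hΦ hN
      by_cases h : IsFlow F s t Φ
      · exact ⟨Φ, h, hΦ⟩
      · obtain ⟨Φ', h1, h2⟩ := lift_step hF hm hφ hΦ h
        exact ih _ (hN ▸ h2) Φ' h1 rfl
  have : NeZero m := ⟨by omega⟩
  apply key _ (fun e => ((φ e).val : ℤ)) _ rfl
  intro e
  refine ⟨by simp, ?_⟩
  rw [abs_of_nonneg (by positivity)]
  have := ZMod.val_lt (φ e)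
  show ((φ e).val : ℤ) < m
  exact_mod_cast this

end Pool.Agent.ConfFlow
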