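import Mathlib
import Pool.Agent.ConfFlow.Glue2
import Pool.Agent.ConfFlow.Lift

set_option autoImplicit false
set_option linter.unusedSectionVars false
set_option linter.unusedVariables false

open Finset

namespace Pool.Agent.ConfFlow

variable {V E : Type} [Fintype V] [Fintype E] [DecidableEq V] [DecidableEq E]

theorem isFlow_comb {F : Finset E} {s t : E → V} {Φ Ψ : E → ℤ} (h1 : IsFlow F s t Φ)
    (h2 : IsFlow F s t Ψ) (c : ℤ) : IsFlow F s t (fun e => Φ e + c * Ψ e) := by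
  have h3 : (fun e => Φ e + c * Ψ e) = Φ + fun e => (AddMonoidHom.mulLeft c) (Ψ e) := by
    ext e
    simp
  intro v
  rw [h3, bd_add, bd_map, h1 v, h2 v]
  simp

/-- separation of two summands -/
theorem sep_aux {m : ℕ} {x y z w : ℤ} {a b : ℤ} {ε ε' : ℤ} (hε : |ε| ≤ 1) (hε' : |ε'| ≤ 1)
    (hx : |x| ≤ m) (hy : |y| ≤ m) (h : ε * (x + (2 * m + 1) * z) + ε' * (y + (2 * m + 1) * w) = 0) :
    ε * x + ε' * y = 0 ∧ ε * z + ε' * w = 0 := by
  have h1 : ε * x + ε' * y = -((2 * m + 1) * (ε * z + ε' * w)) := by linear_combination h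
  have hb : |ε * x + ε' * y| < 2 * m + 1 := by
    have h2 : |ε * x| ≤ m := by
      rw [abs_mul]
      calc |ε| * |x| ≤ 1 * |x| := mul_le_mul_of_nonneg_right hε (abs_nonneg x)
        _ = |x| := one_mul _
        _ ≤ m := hx
    have h3 : |ε' * y| ≤ m := by
      rw [abs_mul]
      calc |ε'| * |y| ≤ 1 * |y| := mul_le_mul_of_nonneg_right hε' (abs_nonneg y)
        _ = |y| := one_mul _
        _ ≤ m := hy
    have h4 := abs_add_le (ε * x) (ε' * y)
    omega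
  have h5 : ε * x + ε' * y = 0 := by
    apply Int.eq_zero_of_abs_lt_dvd (m := 2 * m + 1) _ hb
    rw [h1, dvd_neg]
    exact dvd_mul_right _ _
  refine ⟨h5, ?_⟩
  rw [h5] at h1
  have h6 : (2 * (m : ℤ) + 1) * (ε * z + ε' * w) = 0 := by linarith
  rcases mul_eq_zero.mp h6 with h7 | h7
  · omega
  · exact h7

theorem exists_ternary {F : Finset E} {s t : E → V} (hF : ∀ e ∈ F, s e ≠ t e) :
    ∀ (N : ℕ) (ψ : E → Fin N → ZMod 3), IsFlow F s t ψ →
      ∃ Ψ : E → ℤ, IsFlow F s t Ψ ∧ (∀ e, 2 * |Ψ e| < 5 ^ N) ∧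
        ∀ (e e' : E) (ε ε' : ℤ), |ε| ≤ 1 → |ε'| ≤ 1 → ε * Ψ e + ε' * Ψ e' = 0 →
          ε • ψ e + ε' • ψ e' = 0 := by
  intro N
  induction N with
  | zero =>
    intro ψ _
    refine ⟨fun _ => 0, ?_, ?_, ?_⟩
    · intro v
      simp [bd]
    · intro e
      simp
    · intro e e' ε ε' _ _ _
      ext i
      exact i.elim0
  | succ N ih =>
    intro ψ hψ
    rw [isFlow_pi] at hψ
    obtain ⟨Ψ, h1, h2, h3⟩ := ih (fun e i => ψ e i.succ) (isFlow_pi.mpr (fun i => hψ i.succ))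
    obtain ⟨Φ, h4, h5⟩ := exists_lift hF (by norm_num) (hψ 0)
    refine ⟨fun e => Φ e + 5 * Ψ e, isFlow_comb h4 h1 5, ?_, ?_⟩
    · intro e
      have h6 := h2 e
      have h7 := (h5 e).2
      have h8 := abs_add_le (Φ e) (5 * Ψ e)
      rw [abs_mul] at h8
      have h9 : |(5 : ℤ)| = 5 := by norm_num
      rw [h9] at h8
      rw [pow_succ]
      have h10 : |Φ e| ≤ 2 := by
        have : ((3 : ℕ) : ℤ) = 3 := rfl
        rw [this] at h7
        omega
      show 2 * |Φ e + 5 * Ψ e| < 5 ^ N * 5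
      have h11 : 2 * |Ψ e| + 1 ≤ (5 : ℤ) ^ N := h6
      linarith
    · intro e e' ε ε' hε hε' h
      have hb : ∀ e, |Φ e| ≤ ((2 : ℕ) : ℤ) := by
        intro e
        have h7 := (h5 e).2
        have : ((3 : ℕ) : ℤ) = 3 := rfl
        rw [this] at h7
        push_cast
        omega
      have h6 : ε * (Φ e + (2 * ((2 : ℕ) : ℤ) + 1) * Ψ e)
          + ε' * (Φ e' + (2 * ((2 : ℕ) : ℤ) + 1) * Ψ e') = 0 := by
        have : (2 * ((2 : ℕ) : ℤ) + 1) = 5 := by norm_num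
        rw [this]
        exact h
      obtain ⟨h7, h8⟩ := sep_aux (a := 0) (b := 0) hε hε' (hb e) (hb e') h6
      have h9 := h3 e e' ε ε' hε hε' h8
      ext i
      refine Fin.cases ?_ ?_ i
      · have h10 : ((ε * Φ e + ε' * Φ e' : ℤ) : ZMod 3) = 0 := by rw [h7]; simp
        push_cast at h10
        rw [(h5 e).1, (h5 e').1] at h10
        simpa using h10
      · intro j
        have := congrFun h9 j
        simpa using this

theorem card_idx : Fintype.card Idx = 39 := by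
  simp [Idx]

theorem int_flow {n Δ : ℕ} (hn : Δ < 2 ^ n) {F : Finset E} {s t : E → V}
    (hF : ∀ g ∈ F, s g ≠ t g) (hR : Rich F s t)
    (hΔ : ∀ v, (F.filter (fun e => s e = v ∨ t e = v)).card ≤ Δ) (hne : F.Nonempty) :
    ∃ Φ : E → ℤ, IsFlow F s t Φ ∧ (∀ e, |Φ e| < (4 * n + 1) * 5 ^ 39) ∧ (∀ e ∈ F, Φ e ≠ 0) ∧
      ∀ v, ∀ e ∈ F, ∀ e' ∈ F, e ≠ e' → (s e = v ∨ t e = v) → (s e' = v ∨ t e' = v) →
        inc s t v e * Φ e + inc s t v e' * Φ e' ≠ 0 := by
  obtain ⟨e0, he0⟩ := hne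
  obtain ⟨f, ψ, hG, _⟩ := rich_exists hn F.card F s t rfl hF hR hΔ e0 he0 0
  obtain ⟨Φ, h1, h2⟩ := exists_lift hF (by omega) hG.flow1
  let σ : Idx ≃ Fin 39 := Fintype.equivFinOfCardEq card_idx
  obtain ⟨Ψ, h3, h4, h5⟩ := exists_ternary hF 39 (fun e i => ψ e (σ.symm i))
    (isFlow_pi.mpr (fun i => isFlow_pi.mp hG.flow2 (σ.symm i)))
  have hb : ∀ e, |Φ e| ≤ ((2 * n : ℕ) : ℤ) := by
    intro e
    have := (h2 e).2
    push_cast at this ⊢
    omega
  have hc : (2 * ((2 * n : ℕ) : ℤ) + 1) = 4 * n + 1 := by push_cast; ring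
  have hsep : ∀ (e e' : E) (ε ε' : ℤ), |ε| ≤ 1 → |ε'| ≤ 1 →
      ε * (Φ e + (4 * n + 1) * Ψ e) + ε' * (Φ e' + (4 * n + 1) * Ψ e') = 0 →
      (ε • f e + ε' • f e' = 0 ∧ ε • ψ e + ε' • ψ e' = 0) := by
    intro e e' ε ε' hε hε' h
    rw [← hc] at h
    obtain ⟨h7, h8⟩ := sep_aux (a := 0) (b := 0) hε hε' (hb e) (hb e') h
    constructor
    · have h10 : ((ε * Φ e + ε' * Φ e' : ℤ) : ZMod (2 * n + 1)) = 0 := by rw [h7]; simp
      push_cast at h10
      rw [(h2 e).1, (h2 e').1] at h10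
      simpa using h10
    · have h9 := h5 e e' ε ε' hε hε' h8
      ext i
      have := congrFun h9 (σ i)
      simpa using this
  refine ⟨fun e => Φ e + (4 * n + 1) * Ψ e, isFlow_comb h1 h3 _, ?_, ?_, ?_⟩
  · intro e
    have h6 := hb e
    have h7 := h4 e
    have h8 := abs_add_le (Φ e) ((4 * n + 1) * Ψ e)
    rw [abs_mul] at h8
    have h9 : |(4 * (n : ℤ) + 1)| = 4 * n + 1 := abs_of_nonneg (by positivity)
    rw [h9] at h8
    have h10 : 2 * |Ψ e| + 1 ≤ (5 : ℤ) ^ 39 := h7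
    have h11 : (4 * (n : ℤ) + 1) * (2 * |Ψ e| + 1) ≤ (4 * n + 1) * 5 ^ 39 :=
      mul_le_mul_of_nonneg_left h10 (by positivity)
    have h12 : (0 : ℤ) ≤ (4 * (n : ℤ) + 1) * |Ψ e| := by positivity
    have h13 : (4 * (n : ℤ) + 1) * (2 * |Ψ e| + 1) = 2 * ((4 * (n : ℤ) + 1) * |Ψ e|) + (4 * n + 1) := by
      ring
    show |Φ e + (4 * n + 1) * Ψ e| < _
    push_cast at h6
    generalize (4 * (n : ℤ) + 1) * |Ψ e| = y at *
    generalize (4 * (n : ℤ) + 1) * 5 ^ 39 = z at *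
    omega
  · intro e he h0
    have h0' : Φ e + (4 * n + 1) * Ψ e = 0 := h0
    obtain ⟨_, h6⟩ := hsep e e 1 0 (by norm_num) (by norm_num) (by rw [h0']; ring)
    apply hG.nz e he
    simpa using h6
  · intro v e he e' he' hee' hv hv' h0
    have hi : |inc s t v e| ≤ 1 := by
      rcases inc_cases (hF e he) hv with h | h <;> rw [h] <;> norm_num
    have hi' : |inc s t v e'| ≤ 1 := by
      rcases inc_cases (hF e' he') hv' with h | h <;> rw [h] <;> norm_num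
    exact hG.conf v e he e' he' hee' hv hv' (hsep e e' _ _ hi hi' h0)

end Pool.Agent.ConfFlow
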